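import Pool.Agent.Lib.SE.L.FnX
import Pool.Agent.Lib.SE.V.Asm

/-!
# PROJECT SE-L: the other factors, with threefolds (helper59)
-/

set_option autoImplicit false

open Module

noncomputable section

namespace SEL

open HC HC.E HC.SE SEB SEQ SE SER SEE SES SEG

/-- THE OTHER FACTORS. `G` is (i) of CM type, or (ii) of dimension at most `2`, or of dimension `3` and not simple, or
of dimension `3` and the only imaginary quadratic fields which act on it are `ℚ(i)` and `ℚ(√-3)`, or (iii) with real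
multiplication of degree `dim G`, or (iv) of dimension at least `2` with Hodge group the symplectic
group, or (v) the Jacobian of `y ^ 2 = f(x)`, `f` of odd degree `≥ 5` with distinct roots, outside a meagre set,
or (vi) of Picard type, `dim G ≥ 3`, with commutant of `Z` equal to `ℚ(Z)`. -/
def FacV (M : (m r : ℕ) → (Fin (r + 1) → ℕ) → Set (Fin (r + 1) → ℂ)) (G : AV) : Prop :=
  IsCM G ∨ SEV.Low G ∨ IsRM G ∨ SES.IsSy G ∨ SES.IsHy (fun r => M 2 r fun _ => 1) G ∨
  ∃ (m : ℕ) (Z : Module.End ℂ G.V), IsPic G m Z ∧ 3 ≤ finrank ℂ G.V ∧ EndQ G Z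

/-- The factors `FacV`. -/
theorem facV_dc (Ms : SEV.ModsV) (K : AV → Prop) (hK : ∀ (G : AV) (m r : ℕ) (D : Cyc G m),
    Gd r D → (∀ s, 0 < D.p s) → K G) (G : AV) (h : FacV MMk G) : Dc (Cls K) G := by
  rcases h with h | h | h | h | h | h
  · exact fac_dc K hK G (Or.inl h)
  · exact SEV.dc_of_low Ms (Cls K) (fun G h => Or.inl (Or.inr h)) (fun G h => Or.inr h)
      (fun G m Z h1 h2 h3 =>
        fac_dc K hK G (Or.inr (Or.inr (Or.inr (Or.inr (Or.inr ⟨m, Z, h1, h2, h3⟩)))))) G h
  · exact fac_dc K hK G (Or.inr (Or.inr (Or.inl h)))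
  · exact fac_dc K hK G (Or.inr (Or.inr (Or.inr (Or.inl h))))
  · exact fac_dc K hK G (Or.inr (Or.inr (Or.inr (Or.inr (Or.inl h)))))
  · exact fac_dc K hK G (Or.inr (Or.inr (Or.inr (Or.inr (Or.inr h)))))

end SEL
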