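import Pool.Agent.Lib.SE.L.Fn

/-!
# PROJECT SE-L: assembly of the final theorem with jointly very general branch points (helper59)
-/

set_option autoImplicit false

open Module

noncomputable section

namespace SEL

open HC HC.E HC.SE SEB SEQ SE SER SEE SES SEG

namespace FnM_aux

variable {G G' : AV} {m m' : ℕ}

theorem ind_symm {D : Cyc G m} {D' : Cyc G' m'} (h : Ind D D') : Ind D' D := by
  intro k hk s t
  let e : Pr2 G G' → Pr2 G' G := fun X => (X.2, X.1)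
  have hk' : HLie2 D D' {X | e X ∈ k} := by
    refine ⟨fun X hX => ⟨(hk.rat _ hX).2, (hk.rat _ hX).1⟩,
      fun X hX => ⟨(hk.u _ hX).2, (hk.u _ hX).1⟩, hk.zero, fun X hX Y hY => hk.add _ hX _ hY,
      fun x X hX => hk.smul x _ hX, fun X hX Y hY => hk.br _ hX _ hY, ?_⟩
    let f : Pr2 G' G →ₗ[ℝ] Pr2 G G' := (LinearEquiv.prodComm ℝ _ _).toLinearMap
    have h1 := Submodule.mem_map_of_mem (f := f) hk.J
    rw [Submodule.map_span] at h1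
    refine Submodule.span_mono ?_ h1
    rintro X ⟨Y, hY, rfl⟩
    exact hY
  intro A B hA hB
  obtain ⟨C, hC, h1, h2⟩ := h _ hk' t s B A hB hA
  refine ⟨(C.2, C.1), ?_, h2, h1⟩
  let f : (Module.End ℂ (Frm G) × Module.End ℂ (Frm G')) →ₗ[ℂ]
      (Module.End ℂ (Frm G') × Module.End ℂ (Frm G)) := (LinearEquiv.prodComm ℂ _ _).toLinearMap
  have h3 := Submodule.mem_map_of_mem (f := f) hC
  unfold gg2 at h3
  rw [Submodule.map_span] at h3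
  refine Submodule.span_mono ?_ h3
  rintro X ⟨Y, ⟨Y', ⟨X₁, hX₁, X₂, hX₂, rfl⟩, rfl⟩, rfl⟩
  exact ⟨e (X₁ * X₂ - X₂ * X₁), ⟨e X₁, hX₁, e X₂, hX₂, rfl⟩, rfl⟩

theorem ind_neg (hm : Odd m) {D : Cyc G (2 * m)} {D' : Cyc G' m'} (h : Ind D D') :
    Ind (Cnv_aux.D0 hm D) D' := by
  intro k hk s t
  obtain ⟨s, rfl⟩ := Cnv_aux.Ec_surj hm s
  have hk' : HLie2 D D' k := ⟨hk.rat, fun X hX => ⟨Cnv_aux.isU hm D (hk.u X hX).1,
    (hk.u X hX).2⟩, hk.zero, hk.add, hk.smul, hk.br, hk.J⟩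
  intro A B hA hB
  let ε : Ws D s ≃ₗ[ℂ] Ws (Cnv_aux.D0 hm D) (Cnv_aux.Ec hm s) :=
    LinearEquiv.ofEq _ _ (Cnv_aux.Ws_eq hm D s)
  have hε : ∀ a : Ws D s, ((ε a : Ws (Cnv_aux.D0 hm D) (Cnv_aux.Ec hm s)) : Frm G) =
      (a : Frm G) := fun a => rfl
  obtain ⟨C, hC, h1, h2⟩ := h k hk' s t (ε.symm.conj A) B (by
    rw [LinearMap.trace_conj']
    exact hA) hB
  refine ⟨C, hC, fun a => ?_, h2⟩
  have h3 := h1 (ε.symm a)
  have h4 : ((ε.symm a : Ws D s) : Frm G) = (a : Frm G) := by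
    rw [← hε, LinearEquiv.apply_symm_apply]
  rw [h4] at h3
  rw [h3, LinearEquiv.conj_apply_apply, LinearEquiv.symm_symm, LinearEquiv.apply_symm_apply,
    ← hε, LinearEquiv.apply_symm_apply]

theorem ind_frm {m₀ : ℕ} {D : Cyc G m} {D₀ : Cyc G m₀} (hf : Frm0 D D₀) {D' : Cyc G' m'}
    (h : Ind D D') : Ind D₀ D' := by
  rcases hf with ⟨rfl, rfl⟩ | ⟨hk, rfl, rfl⟩
  · exact h
  · exact ind_neg hk h

end FnM_aux

open FnM_aux

/-- The class of the good factors in the final theorem, for given data. -/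
def Km (N' : ℕ) (G₀ : Fin N' → AV) (μ ρ : Fin N' → ℕ) (β : ∀ n, Fin (ρ n + 1) → ℕ)
    (σ : ∀ n, Fin (ρ n + 1) → ℂ) (G : AV) : Prop :=
  ∃ (m r : ℕ) (D₀ : Cyc G m), Gd r D₀ ∧ ((∀ s, 0 < D₀.p s) ∨
    ∃ n, G = G₀ n ∧ Nw MMk (G₀ n) (μ n) (ρ n) (β n) (σ n) ∧ r = ρ n ∧
      Pat D₀ (μ n) (sg (μ n) (ρ n) (β n)) ∧
      ∃ (N : New G (μ n) (σ n) (β n)) (D : Cyc G (μ n)), D.Z = N.Z ∧ Frm0 D D₀)

/-- Some signature is indefinite. -/
theorem hypW_of {G : AV} {m m₀ r : ℕ} {b : Fin (r + 1) → ℕ} {s : Fin (r + 1) → ℂ}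
    (hc : IsCov m s b) {D₀ : Cyc G m₀} (h : Gd r D₀) (hp : Pat D₀ m (sg m r b)) :
    HypW m r b := by
  obtain ⟨a1, a2, c, a3, a4⟩ := hp
  obtain ⟨v, h1, h2⟩ := h.ind
  obtain ⟨u, hu, huv⟩ := Cp_aux.lift h.gf.hm v
  rw [a4 v u hu huv] at h1 h2
  have hm : 3 ≤ m := hc.1
  have hcu : (c * u).Coprime m := Nat.Coprime.coprime_dvd_right (Cp_aux.dvd2 a1)
    (Nat.Coprime.mul_left a3 hu)
  have hcu' : (c * u % m).Coprime m := by
    rw [Nat.coprime_iff_gcd_eq_one, ← Nat.gcd_rec, Nat.gcd_comm]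
    exact hcu
  have e1 := a2 _ _ (Nat.mod_modEq (c * u) m)
  refine ⟨c * u % m, Nat.mod_lt _ (by omega), hcu', by omega, ?_⟩
  have h3 := tSg m r s b hc (c * u % m) (Nat.mod_lt _ (by omega)) hcu'
  omega

/-- All structures of the two new parts are independent. -/
def IndN {G G' : AV} {m m' r r' : ℕ} (s : Fin (r + 1) → ℂ) (b : Fin (r + 1) → ℕ)
    (s' : Fin (r' + 1) → ℂ) (b' : Fin (r' + 1) → ℕ) : Prop :=
  ∀ (N : New G m s b) (N' : New G' m' s' b') (D : Cyc G m) (D' : Cyc G' m'), D.Z = N.Z →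
    D'.Z = N'.Z → Ind D D'

/-- Pairs: independent data. -/
theorem fam_km {N' : ℕ} {G₀ : Fin N' → AV} {μ ρ : Fin N' → ℕ} {β : ∀ n, Fin (ρ n + 1) → ℕ}
    {σ : ∀ n, Fin (ρ n + 1) → ℂ}
    (hC : ∀ n n', Nw MMk (G₀ n) (μ n) (ρ n) (β n) (σ n) →
      Nw MMk (G₀ n') (μ n') (ρ n') (β n') (σ n') →
      Isg (G₀ n) (G₀ n') ∨ Cpt (μ n) (μ n') (ρ n) (ρ n') (sg (μ n) (ρ n) (β n))
        (sg (μ n') (ρ n') (β n')) ∨
      (HypW (μ n) (ρ n) (β n) → HypW (μ n') (ρ n') (β n') → ρ n = ρ n' →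
        IndN (G := G₀ n) (G' := G₀ n') (m := μ n) (m' := μ n') (σ n) (β n) (σ n') (β n'))) :
    Fam (Km N' G₀ μ ρ β σ) := by
  intro q R hR hne
  choose m r D h1 h2 using hR
  refine ⟨m, r, D, h1, fun i i' hii => ?_⟩
  -- different ranks
  by_cases hrr : r i = r i'
  swap
  · exact fun h hh s t => tPPv _ _ _ _ _ _ (D i) (D i') (h1 i).gf (h1 i').gf (Or.inl hrr)
      (hne i i' hii) h hh s t
  have key : ((∀ s, 0 < (D i).p s) ∨ (∀ s, 0 < (D i').p s) ∨ ∃ (μ μ' : ℕ) (p p' : ℕ → ℕ),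
      Pat (D i) μ p ∧ Pat (D i') μ' p' ∧ Cpt μ μ' (r i) (r i') p p') → Ind (D i) (D i') :=
    fun h3 h hh s t => tPPv _ _ _ _ _ _ (D i) (D i') (h1 i).gf (h1 i').gf
      (cpv_of (h1 i) (h1 i') h3) (hne i i' hii) h hh s t
  rcases h2 i with hi | ⟨n, e1, e2, e3, e4, N, D₁, e5, e6⟩
  · exact key (Or.inl hi)
  rcases h2 i' with hi | ⟨n', f1, f2, f3, f4, N₁, D₂, f5, f6⟩
  · exact key (Or.inr (Or.inl hi))
  rcases hC n n' e2 f2 with hc | hc | hc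
  · rw [← e1, ← f1] at hc
    exact absurd hc (hne i i' hii)
  · refine key (Or.inr (Or.inr ⟨_, _, _, _, e4, f4, ?_⟩))
    rw [e3, f3]
    exact hc
  · obtain ⟨-, c1, -⟩ := e2
    obtain ⟨-, c2, -⟩ := f2
    have g1 : Gd (ρ n) (D i) := e3 ▸ h1 i
    have g2 : Gd (ρ n') (D i') := f3 ▸ h1 i'
    have hI : ∀ (N : New (R i) (μ n) (σ n) (β n)) (N' : New (R i') (μ n') (σ n') (β n'))
        (D : Cyc (R i) (μ n)) (D' : Cyc (R i') (μ n')), D.Z = N.Z → D'.Z = N'.Z → Ind D D' := by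
      rw [e1, f1]
      exact hc (hypW_of c1 g1 e4) (hypW_of c2 g2 f4) (by omega)
    have hI' := hI N N₁ D₁ D₂ e5 f5
    exact ind_frm e6 (ind_symm (ind_frm f6 (ind_symm hI')))

/-- **THE MAIN THEOREM**: `F` is a class of other factors, pairs of new parts are isogenous, or (*)
holds, or they are independent. -/
theorem con_main {F : AV → Prop}
    (hF : ∀ (K : AV → Prop), (∀ (G : AV) (m r : ℕ) (D : Cyc G m), Gd r D →
      (∀ s, 0 < D.p s) → K G) → ∀ G, F G → Dc (Cls K) G)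
    (A B : AV) (N' : ℕ) (G : Fin N' → AV) (μ ρ : Fin N' → ℕ) (β : ∀ n, Fin (ρ n + 1) → ℕ)
    (σ : ∀ n, Fin (ρ n + 1) → ℂ) (hA : IsCM A)
    (hG : ∀ n, F (G n) ∨ Nw MMk (G n) (μ n) (ρ n) (β n) (σ n))
    (hC : ∀ n n', Nw MMk (G n) (μ n) (ρ n) (β n) (σ n) →
      Nw MMk (G n') (μ n') (ρ n') (β n') (σ n') →
      Isg (G n) (G n') ∨ Cpt (μ n) (μ n') (ρ n) (ρ n') (sg (μ n) (ρ n) (β n))
        (sg (μ n') (ρ n') (β n')) ∨
      (HypW (μ n) (ρ n) (β n) → HypW (μ n') (ρ n') (β n') → ρ n = ρ n' →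
        IndN (G := G n) (G' := G n') (m := μ n) (m' := μ n') (σ n) (β n) (σ n') (β n')))
    (hB : IsProdE B A G) : Con B := by
  refine con_of (K := Km N' G μ ρ β σ) (fam_km hC)
    (SES.tDcB SES.tDcA _ A B N' G ((SES.tDcA _).1 A hA) (fun n => ?_) hB)
  rcases hG n with h | h
  · exact hF _ (fun G m r D h1 h2 => ⟨m, r, D, h1, Or.inl h2⟩) _ h
  · obtain ⟨a1, a2, a3, -⟩ := SES.tDcA (Cls (Km N' G μ ρ β σ))
    rcases nw_data (fun m r b s hs => Or.inl hs) h with h1 | h1 | ⟨m₀, D₀, h1, h2, h3⟩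
    · exact a1 _ h1
    · exact dc_small _ (fun G h => Or.inl (Or.inr h)) (fun G h => Or.inr h) h1.le
    · exact a2 _ (Or.inl (Or.inl ⟨m₀, ρ n, D₀, h1, Or.inr ⟨n, rfl, h, rfl, h2, h3⟩⟩))

/-- **THE FINAL THEOREM**, assembly: `F` is a class of other factors. -/
theorem finM_of {F : ((m r : ℕ) → (Fin (r + 1) → ℕ) → Set (Fin (r + 1) → ℂ)) → AV → Prop}
    (hF : ∀ (K : AV → Prop), (∀ (G : AV) (m r : ℕ) (D : Cyc G m), Gd r D →
      (∀ s, 0 < D.p s) → K G) → ∀ G, F MMk G → Dc (Cls K) G) (hJ : S_Jnt) : FinM F := by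
  obtain ⟨M₂, hM2, hJ⟩ := hJ
  refine ⟨cpt_one, MMk, M₂, mmk_meagre SEU.tMxm, hM2, ?_⟩
  intro A B T N' G μ ρ β σ hA hG hC hB q N J j m Z E ψ hFc hE hψ d c hc hS
  refine con_main hF A B N' G μ ρ β σ hA hG (fun n n' h h' => ?_) hB T q N J j m Z E ψ hFc
    hE hψ d c hc hS
  rcases hC n n' h h' with h1 | h1 | ⟨h1, h2⟩
  · exact Or.inl h1
  · exact Or.inr (Or.inl h1)
  · obtain ⟨-, c1, -⟩ := h
    obtain ⟨-, c2, -⟩ := h'
    exact Or.inr (Or.inr fun w1 w2 hr N N₁ D D' hD hD' =>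
      hJ _ _ _ _ _ _ _ _ h2 h1 (by omega) w1 w2 c1 c2 _ _ N N₁ D D' hD hD')

/-- The factors `Fac`. -/
theorem fac_dc (K : AV → Prop) (hK : ∀ (G : AV) (m r : ℕ) (D : Cyc G m), Gd r D →
    (∀ s, 0 < D.p s) → K G) (G : AV) (h : Fac MMk G) : Dc (Cls K) G := by
  obtain ⟨a1, a2, a3, -⟩ := SES.tDcA (Cls K)
  rcases h with h | h | h | h | h | ⟨m, Z, hP, h3, hE⟩
  · exact a1 G h
  · exact dc_small _ (fun G h => Or.inl (Or.inr h)) (fun G h => Or.inr h) h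
  · exact a2 G (Or.inl (Or.inr h))
  · exact a2 G (Or.inr h)
  · refine a2 G (Or.inr (isSy_of_hy ?_))
    obtain ⟨r, s, N, h1, h2, h3, h4⟩ := h
    exact ⟨r, s, N, h1, h2, h3, fun h5 => h4 (Or.inr ⟨rfl, h5⟩)⟩
  · obtain ⟨m₀, r, D, h1, -, h2⟩ := pic_data hP h3 hE
    exact a2 G (Or.inl (Or.inl (hK G m₀ r D h1 h2)))

/-- **THE FINAL THEOREM** with jointly very general branch points, from `S_Jnt`. -/
theorem finM_fac (hJ : S_Jnt) : FinM Fac := finM_of fac_dc hJ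

end SEL
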