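import Pool.Agent.Lib.SE.L.SpecX
import Pool.Agent.Lib.SE.L.FacV
import Pool.Agent.Lib.SE.Z.Asm

/-!
# PROJECT SE-L: the final statement for very general points of the line (helper59, after helper64)
-/

set_option autoImplicit false

open Module

noncomputable section

namespace SEL

open HC HC.E HC.SE SEB SEQ SER SE SEE SEZ

/-- **THE FINAL THEOREM**, for a class `F` of other factors. `G n` is in the class `F`, or a new part as in `Nw`;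
for all pairs of new parts which are not isogenous and do not satisfy (*) the covers are branched at some of
the points `∞, s_1, …, s_p`, `s` a very general point of `ℂᵖ` (at least 5 branch points, or 4 and different
branch sets). -/
def FinZ (F : ((m r : ℕ) → (Fin (r + 1) → ℕ) → Set (Fin (r + 1) → ℂ)) → AV → Prop) : Prop :=
  (∀ m r, Cle m r → Cpt m m r r (sg m r fun _ => 1) (sg m r fun _ => 1)) ∧
  ∃ (M : (m r : ℕ) → (Fin (r + 1) → ℕ) → Set (Fin (r + 1) → ℂ))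
    (M' : (p : ℕ) → Set (Fin p → ℂ)),
  (∀ m r b, IsMeagre (M m r b)) ∧ (∀ p, IsMeagre (M' p)) ∧
  (∀ (p : ℕ) (s : Fin p → ℂ), s ∉ M' p → Function.Injective s ∧
    ∀ (m r : ℕ) (b : Fin (r + 1) → ℕ) (i : Fin (r + 1) → Fin p) (k : Option (Fin p)),
      Okk i k → pt s i k ∉ M m r b) ∧
  ∀ (A B T : AV) (N' : ℕ) (G : Fin N' → AV) (μ ρ : Fin N' → ℕ) (β : ∀ n, Fin (ρ n + 1) → ℕ)
    (σ : ∀ n, Fin (ρ n + 1) → ℂ),
    IsCM A → (∀ n, F M (G n) ∨ Nw M (G n) (μ n) (ρ n) (β n) (σ n)) →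
    (∀ n n', Nw M (G n) (μ n) (ρ n) (β n) (σ n) → Nw M (G n') (μ n') (ρ n') (β n') (σ n') →
      Isg (G n) (G n') ∨ Cpt (μ n) (μ n') (ρ n) (ρ n') (sg (μ n) (ρ n) (β n))
        (sg (μ n') (ρ n') (β n')) ∨
      (2 ≤ ρ n ∧ ∃ (p : ℕ) (s : Fin p → ℂ) (i : Fin (ρ n + 1) → Fin p) (k : Option (Fin p))
        (i' : Fin (ρ n' + 1) → Fin p) (k' : Option (Fin p)), s ∉ M' p ∧ Okk i k ∧ Okk i' k' ∧
        (3 ≤ ρ n ∨ Bs i k ≠ Bs i' k') ∧ σ n = pt s i k ∧ σ n' = pt s i' k')) →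
    IsProdE B A G →
  ∀ (q N : ℕ) (J : Fin q → AV) (j : Fin N → Fin q) (m : Fin q → ℕ)
    (Z : ∀ i, Module.End ℂ (J i).V) (E : ∀ i, (J i).V →ₗ[ℝ] (J i).V →ₗ[ℝ] ℝ)
    (ψ : T.V ≃ₗ[ℂ] B.V × (∀ n, (J (j n)).V)),
    (∀ i, Fct (J i) (m i) (Z i)) → (∀ i, IsPol (J i) (Z i) (E i)) →
    (∀ v ∈ T.L, ∃ k : ℕ, k ≠ 0 ∧ k • (ψ v).1 ∈ B.L ∧ ∀ n, k • (ψ v).2 n ∈ (J (j n)).L) →
    ∀ (d : ℕ) (c : Hlg T d), IsHodge T d c → SUK Z E ψ c → Alg2 T d c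

/-- The other factors in the simple form. -/
def Fa0 (G : AV) : Prop :=
  SEV.Low G ∨ IsRM G ∨ SES.IsSy G ∨
    ∃ (m : ℕ) (Z : Module.End ℂ G.V), IsPic G m Z ∧ 3 ≤ finrank ℂ G.V ∧ EndQ G Z

/-- The factors in the simple form: other factors, or new parts of all cyclic covers of the line whose branch set
is contained in `{∞, s_1, …, s_p}` and does not have exactly 4 elements. -/
def Fas {p : ℕ} (s : Fin p → ℂ) (G : AV) : Prop :=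
  Fa0 G ∨ ∃ (m r : ℕ) (b : Fin (r + 1) → ℕ) (i : Fin (r + 1) → Fin p) (k : Option (Fin p)),
    Okk i k ∧ ∃ _ : New G m (pt s i k) b, (IsCov m (pt s i k) b ∧ r ≠ 2) ∨
      (m = 2 ∧ (∀ j, b j = 1) ∧ Even r ∧ 4 ≤ r)

/-- **THE FINAL THEOREM**, simple form. -/
def FinW : Prop :=
  ∃ M : (p : ℕ) → Set (Fin p → ℂ), (∀ p, IsMeagre (M p)) ∧
  ∀ (p : ℕ) (s : Fin p → ℂ), s ∉ M p →
  ∀ (A B T : AV) (N' : ℕ) (G : Fin N' → AV), IsCM A → (∀ n, Fas s (G n)) → IsProdE B A G →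
  ∀ (q N : ℕ) (J : Fin q → AV) (j : Fin N → Fin q) (m : Fin q → ℕ)
    (Z : ∀ i, Module.End ℂ (J i).V) (E : ∀ i, (J i).V →ₗ[ℝ] (J i).V →ₗ[ℝ] ℝ)
    (ψ : T.V ≃ₗ[ℂ] B.V × (∀ n, (J (j n)).V)),
    (∀ i, Fct (J i) (m i) (Z i)) → (∀ i, IsPol (J i) (Z i) (E i)) →
    (∀ v ∈ T.L, ∃ k : ℕ, k ≠ 0 ∧ k • (ψ v).1 ∈ B.L ∧ ∀ n, k • (ψ v).2 n ∈ (J (j n)).L) →
    ∀ (d : ℕ) (c : Hlg T d), IsHodge T d c → SUK Z E ψ c → Alg2 T d c

end SEL
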