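import Pool.Agent.Lib.SE.L.AllX

/-!
# PROJECT SE-L: the simple form of the final theorem with one very general point (helper59)
-/

set_option autoImplicit false

open Module

noncomputable section

namespace SEL

open HC HC.E HC.SE SEB SEQ SE SER SEE

/-- The other factors in the simple form. -/
def Fa1 (G : AV) : Prop :=
  finrank ℂ G.V ≤ 2 ∨ IsRM G ∨ SES.IsSy G ∨
    ∃ (m : ℕ) (Z : Module.End ℂ G.V), IsPic G m Z ∧ 3 ≤ finrank ℂ G.V ∧ EndQ G Z

/-- The factors in the simple form: other factors, or new parts of the cyclic covers of the line branched at `∞`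
and at the points `s_i`, `i ∈ I`, the set `I` not having exactly 3 elements. -/
def Fax {p : ℕ} (s : Fin p → ℂ) (G : AV) : Prop :=
  Fa1 G ∨ ∃ (m r : ℕ) (b : Fin (r + 1) → ℕ) (i : Fin (r + 1) → Fin p),
    Function.Injective i ∧ ∃ _ : New G m (s ∘ i) b, (IsCov m (s ∘ i) b ∧ r ≠ 2) ∨
      (m = 2 ∧ (∀ j, b j = 1) ∧ Even r ∧ 4 ≤ r)

/-- **THE FINAL THEOREM**, simple form with one very general point. -/
def FinV : Prop :=
  ∃ M : (p : ℕ) → Set (Fin p → ℂ), (∀ p, IsMeagre (M p)) ∧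
  ∀ (p : ℕ) (s : Fin p → ℂ), s ∉ M p →
  ∀ (A B T : AV) (N' : ℕ) (G : Fin N' → AV), IsCM A → (∀ n, Fax s (G n)) → IsProdE B A G →
  ∀ (q N : ℕ) (J : Fin q → AV) (j : Fin N → Fin q) (m : Fin q → ℕ)
    (Z : ∀ i, Module.End ℂ (J i).V) (E : ∀ i, (J i).V →ₗ[ℝ] (J i).V →ₗ[ℝ] ℝ)
    (ψ : T.V ≃ₗ[ℂ] B.V × (∀ n, (J (j n)).V)),
    (∀ i, Fct (J i) (m i) (Z i)) → (∀ i, IsPol (J i) (Z i) (E i)) →
    (∀ v ∈ T.L, ∃ k : ℕ, k ≠ 0 ∧ k • (ψ v).1 ∈ B.L ∧ ∀ n, k • (ψ v).2 n ∈ (J (j n)).L) →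
    ∀ (d : ℕ) (c : Hlg T d), IsHodge T d c → SUK Z E ψ c → Alg2 T d c

theorem meagre_ninj (p : ℕ) : IsMeagre {s : Fin p → ℂ | ¬ Function.Injective s} := by
  have h1 : {s : Fin p → ℂ | ¬ Function.Injective s} ⊆
      ⋃ (i : Fin p) (j : Fin p), {s | i ≠ j ∧ s i = s j} := by
    intro s hs
    simp only [Set.mem_ofPred_eq, Function.Injective, not_forall] at hs
    obtain ⟨i, j, h2, h3⟩ := hs
    exact Set.mem_iUnion.2 ⟨i, Set.mem_iUnion.2 ⟨j, h3, h2⟩⟩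
  refine IsMeagre.mono h1 (isMeagre_iUnion fun i => isMeagre_iUnion fun j => ?_)
  by_cases hij : i = j
  · have : {s : Fin p → ℂ | i ≠ j ∧ s i = s j} = ∅ :=
      Set.eq_empty_of_forall_notMem fun s hs => hs.1 hij
    rw [this]
    exact IsMeagre.empty
  let W : Submodule ℂ (Fin p → ℂ) := LinearMap.ker
    (LinearMap.proj (R := ℂ) (φ := fun _ : Fin p => ℂ) i - LinearMap.proj j)
  have hW : {s : Fin p → ℂ | i ≠ j ∧ s i = s j} ⊆ (W : Set (Fin p → ℂ)) := by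
    rintro s ⟨-, hs⟩
    change s ∈ LinearMap.ker _
    rw [LinearMap.mem_ker, LinearMap.sub_apply, LinearMap.proj_apply, LinearMap.proj_apply, hs,
      sub_self]
  refine IsMeagre.mono hW (IsNowhereDense.isMeagre ?_)
  have hc : IsClosed (W : Set (Fin p → ℂ)) := W.closed_of_finiteDimensional
  rw [hc.isNowhereDense_iff]
  by_contra hne
  have h2 := W.eq_top_of_nonempty_interior' (Set.nonempty_iff_ne_empty.2 hne)
  have h3 : Pi.single i (1 : ℂ) ∈ W := h2 ▸ Submodule.mem_top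
  have h4 : Pi.single (M := fun _ : Fin p => ℂ) i (1 : ℂ) i -
      Pi.single (M := fun _ : Fin p => ℂ) i (1 : ℂ) j = 0 := LinearMap.mem_ker.1 h3
  rw [Pi.single_eq_same, Pi.single_eq_of_ne (Ne.symm hij), sub_zero] at h4
  exact one_ne_zero h4

/-- The simple form. -/
theorem finV_of (h : FinX Fac) : FinV := by
  obtain ⟨-, M, M', hM, hM', hMM, h⟩ := h
  refine ⟨fun p => M' p ∪ {s | ¬ Function.Injective s},
    fun p => (hM' p).union (meagre_ninj p), ?_⟩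
  intro p s hs A B T N' G hA hG hB q N J j m Z E ψ hFc hE hψ d c hc hS
  rw [Set.mem_union, not_or] at hs
  obtain ⟨hs, hinj⟩ := hs
  have hinj : Function.Injective s := not_not.1 hinj
  have hMM := hMM p s hs
  -- the data
  have key : ∀ n, ∃ (μ ρ : ℕ) (β : Fin (ρ + 1) → ℕ) (σ : Fin (ρ + 1) → ℂ),
      (Fac M (G n) ∧ μ = 0) ∨
        (Nw M (G n) μ ρ β σ ∧ ρ ≠ 2 ∧ ∃ i, Function.Injective i ∧ σ = s ∘ i) := by
    intro n
    rcases hG n with h1 | ⟨m, r, b, i, hk, D, ⟨h1, h2⟩ | ⟨rfl, h2, h3, h4⟩⟩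
    · refine ⟨0, 0, fun _ => 0, fun _ => 0, Or.inl ⟨?_, rfl⟩⟩
      rcases h1 with h1 | h1 | h1 | h1
      · exact Or.inr (Or.inl h1)
      · exact Or.inr (Or.inr (Or.inl h1))
      · exact Or.inr (Or.inr (Or.inr (Or.inl h1)))
      · exact Or.inr (Or.inr (Or.inr (Or.inr (Or.inr h1))))
    · exact ⟨m, r, b, s ∘ i, Or.inr ⟨⟨D, h1, Or.inl ⟨h2, hMM m r b i hk⟩⟩, h2, i, hk, rfl⟩⟩
    · obtain rfl : b = fun _ => 1 := funext h2
      exact ⟨0, 0, fun _ => 0, fun _ => 0, Or.inl ⟨Or.inr (Or.inr (Or.inr (Or.inr (Or.inl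
        ⟨r, s ∘ i, D, h4, h3, hinj.comp hk, hMM 2 r _ i hk⟩)))), rfl⟩⟩
  choose μ ρ β σ key using key
  refine h A B T N' G μ ρ β σ hA (fun n => ?_) (fun n n' h1 h2 => ?_) hB q N J j m Z E ψ hFc hE
    hψ d c hc hS
  · rcases key n with ⟨h1, -⟩ | ⟨h1, -⟩
    · exact Or.inl h1
    · exact Or.inr h1
  · have e0 : μ n ≠ 0 := by
      obtain ⟨-, hc, -⟩ := h1
      have := hc.1
      omega
    have e0' : μ n' ≠ 0 := by
      obtain ⟨-, hc, -⟩ := h2
      have := hc.1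
      omega
    obtain ⟨-, e1, i, e2, e3⟩ := (key n).resolve_left fun h => e0 h.2
    obtain ⟨-, f1, i', f2, f3⟩ := (key n').resolve_left fun h => e0' h.2
    right
    rcases Nat.lt_or_ge (ρ n) 3 with h3 | h3
    · refine Or.inl fun _ _ h4 => ?_
      obtain ⟨u, -, h5, h6⟩ := h4
      omega
    · exact Or.inr ⟨h3, p, s, i, i', hs, e2, f2, e3, f3⟩

/-- **THE FINAL THEOREM**, simple form with one very general point. -/
theorem finV : FinV := finV_of finX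

end SEL
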