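import Pool.Agent.Lib.SE.L.Spec
import Pool.Agent.Lib.SE.G.Cnv
import Pool.Agent.Lib.SE.E.Gg
import Pool.Agent.Lib.SE.E.Cp
import Pool.Agent.Lib.SE.P.All
import Pool.Agent.Lib.SE.All
import Pool.Agent.Lib.SE.Big.Gw
import Pool.Agent.Lib.SE.Big.fD

/-!
# PROJECT SE-L: the data of the factors (helper59)
-/

set_option autoImplicit false

open Module

noncomputable section

namespace SEL

open HC HC.E HC.SE SEB SEQ SER SE SEE SEG

theorem sg_congr {m r : ℕ} {b : Fin (r + 1) → ℕ} {u u' : ℕ} (h : u ≡ u' [MOD m]) :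
    sg m r b u = sg m r b u' := by
  have h1 : ∀ j, (u * b j) % m = (u' * b j) % m := fun j => h.mul_right _
  unfold sg
  simp only [h1]

theorem sum_p {G : AV} {m r : ℕ} {D : Cyc G m} (hm : 3 ≤ m)
    (hd : 2 * finrank ℂ G.V = r * Nat.totient m) (s : (ZMod m)ˣ) : D.p s + D.p (-s) = r :=
  (tDim tPj tTw (tBas tPj) G m r D hm hd s).2

/-- The signature of a new part. -/
theorem pat_self {G : AV} {m r : ℕ} {b : Fin (r + 1) → ℕ} (hm : 3 ≤ m) {D : Cyc G m}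
    (hp : ∀ u : (ZMod m)ˣ, D.p u = sg m r b (u : ZMod m).val) : Pat D m (sg m r b) := by
  have : NeZero m := ⟨by omega⟩
  refine ⟨Or.inl rfl, fun u u' h => sg_congr h, 1, Nat.coprime_one_left _, ?_⟩
  intro v u hu huv
  rw [hp, one_mul]
  refine sg_congr ?_
  rw [← ZMod.natCast_eq_natCast_iff, huv, ZMod.natCast_zmod_val]

theorem pat_neg {G : AV} {m r : ℕ} {b : Fin (r + 1) → ℕ} (hm : Odd m) {D : Cyc G (2 * m)}
    (hp : ∀ u : (ZMod (2 * m))ˣ, D.p u = sg (2 * m) r b (u : ZMod (2 * m)).val) :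
    Pat (Cnv_aux.D0 hm D) (2 * m) (sg (2 * m) r b) := by
  have h0 : 0 < m := hm.pos
  have : NeZero (2 * m) := ⟨by omega⟩
  have h2m : Nat.Coprime 2 m := Nat.coprime_two_left.2 hm
  refine ⟨Or.inr ⟨hm, rfl⟩, fun u u' h => sg_congr h, m + 2, ?_, ?_⟩
  · refine Nat.Coprime.mul_right ?_ ?_
    · exact Nat.coprime_two_right.2 (by
        obtain ⟨k, rfl⟩ := hm
        exact ⟨k + 1, by ring⟩)
    · rw [Nat.coprime_self_add_left]
      exact h2m
  · intro v u hu huv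
    obtain ⟨t, rfl⟩ := Cnv_aux.Ec_surj hm v
    rw [Cnv_aux.p_eq, hp]
    refine sg_congr ?_
    have hu2 : u.Coprime 2 := Nat.Coprime.coprime_dvd_right ⟨m, rfl⟩ hu
    refine (Nat.modEq_and_modEq_iff_modEq_mul h2m).1 ⟨?_, ?_⟩
    · have e1 : (t : ZMod (2 * m)).val % 2 = 1 := by
        have h1 := ZMod.val_coe_unit_coprime t
        exact Nat.odd_iff.1 (Nat.coprime_two_left.1
          (Nat.Coprime.coprime_dvd_right ⟨m, rfl⟩ h1).symm)
      have e2 : ((m + 2) * u) % 2 = 1 := by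
        have h3 : Odd (m + 2) := by
          obtain ⟨k, rfl⟩ := hm
          exact ⟨k + 1, by ring⟩
        exact Nat.odd_iff.1 (h3.mul (Nat.coprime_two_right.1 hu2))
      exact e1.trans e2.symm
    · rw [← ZMod.natCast_eq_natCast_iff, ← Cnv_aux.Ec_two hm t, ← huv]
      push_cast
      rw [ZMod.natCast_self, zero_add]

/-- All signatures are definite: CM type. -/
theorem isCM_def {G : AV} {m r : ℕ} {D : Cyc G m} (hm : 3 ≤ m)
    (hd : 2 * finrank ℂ G.V = r * Nat.totient m) (h : ∀ s, D.p s = 0 ∨ D.p (-s) = 0) : IsCM G :=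
  thA4 G m D (tfD tPj (tBas tPj) (tDim tPj tTw (tBas tPj)) G m r D hm hd h)

/-- A character with `2 ≤ p s`. -/
theorem p2_of {G : AV} {m r : ℕ} {D : Cyc G m} (hm : 3 ≤ m) (hr : 3 ≤ r)
    (hd : 2 * finrank ℂ G.V = r * Nat.totient m) : ∃ s, 2 ≤ D.p s := by
  have h1 := sum_p (D := D) hm hd 1
  rcases Nat.lt_or_ge (D.p 1) 2 with h2 | h2
  · exact ⟨-1, by omega⟩
  · exact ⟨1, h2⟩

/-- New parts, before the reduction to `m` not `2` modulo `4`. -/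
theorem nw_pre {M : (m r : ℕ) → (Fin (r + 1) → ℕ) → Set (Fin (r + 1) → ℂ)}
    (hM : ∀ m r b, MMx m r b ⊆ M m r b) {G : AV} {m r : ℕ} {b : Fin (r + 1) → ℕ}
    {s : Fin (r + 1) → ℂ} (N : New G m s b) (hc : IsCov m s b)
    (h : (r ≠ 2 ∧ s ∉ M m r b) ∨ (AperC m r b ∧
      (r = 2 ∨ ((∃ u < m, u.Coprime m ∧ sg m r b u = 1) ∧ EndQ G N.Z)))) :
    IsCM G ∨ (r = 2 ∧ finrank ℂ G.V = 2) ∨ ∃ D : Cyc G m, D.Z = N.Z ∧
      (∀ u : (ZMod m)ˣ, D.p u = sg m r b (u : ZMod m).val) ∧ GFw D r ∧ HDa D ∧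
      (∃ u, 0 < D.p u ∧ D.p u < r) ∧ (∃ s, 2 ≤ D.p s) ∧ (3 ≤ r ∨ 2 < m.totient) := by
  have hm : 3 ≤ m := hc.1
  have : NeZero m := ⟨by omega⟩
  obtain ⟨D, hD⟩ := tAvg G m (by omega) N.Z N.lat N.cyc
  have hsg : ∀ u : (ZMod m)ˣ, D.p u = sg m r b (u : ZMod m).val :=
    tPnew tSg mods.Bas G m r s b hc N D hD
  have hsum := sum_p (D := D) hm N.dim
  have hda : HDa D := fun R hR =>
    SEP.hasDA s_da SEP.s_DAB (Or.inl ⟨r, s, b, N, hc, hD.symm⟩) hR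
  by_cases hdef : ∀ s, D.p s = 0 ∨ D.p (-s) = 0
  · exact Or.inl (isCM_def hm N.dim hdef)
  simp only [not_forall, not_or] at hdef
  obtain ⟨v, hv1, hv2⟩ := hdef
  have hv := hsum v
  have hind : ∃ u, 0 < D.p u ∧ D.p u < r := ⟨v, by omega, by omega⟩
  by_cases hr2 : r = 2
  · subst hr2
    have hap : AperC m 2 b := by
      rcases h with ⟨h, -⟩ | ⟨h, -⟩
      · exact absurd rfl h
      · exact h
    have hA : Aper D := tAp G m 2 D b hm hsg hap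
    have hdim := N.dim
    by_cases ht : m.totient = 2
    · exact Or.inr (Or.inl ⟨rfl, by omega⟩)
    have ht2 : 2 < m.totient := by
      have h1 : 0 < m.totient := Nat.totient_pos.2 (by omega)
      have h2 : Even m.totient := Nat.totient_even (by omega)
      obtain ⟨k, hk⟩ := h2
      omega
    have hfin : finrank ℂ G.V = m.totient := by omega
    have key : ∀ a b : ℕ, a ≠ 0 → b ≠ 0 → a + b = 2 → a = 1 := fun a b h1 h2 h3 => by omega
    have hv1' : D.p v = 1 := key _ _ hv1 hv2 hv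
    rcases good_two mods tA1 (tA2 tHm) tA3 tA4 D hm hfin ⟨v, hv1'⟩ hA with h1 | h1
    · exact Or.inl h1
    refine Or.inr (Or.inr ⟨D, hD, hsg, gfw_of_gfg (SEE.Gge_aux.gfg h1), hda, hind, ?_, Or.inr ht2⟩)
    by_contra hno
    simp only [not_exists, not_le] at hno
    have hone : ∀ u, D.p u = 1 := fun u => by
      have := hsum u
      have := hno u
      have := hno (-u)
      omega
    have hu : ∀ g : (ZMod m)ˣ, g = 1 ∨ g = -1 := fun g => hA g fun s => by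
      rw [hone, hone, hone, hone]
    have hcard : Fintype.card (ZMod m)ˣ ≤ 2 := by
      have h1 : (Finset.univ : Finset (ZMod m)ˣ) ⊆ {1, -1} := by
        intro g _
        rcases hu g with rfl | rfl <;> simp
      calc Fintype.card (ZMod m)ˣ = (Finset.univ : Finset (ZMod m)ˣ).card := rfl
        _ ≤ ({1, -1} : Finset (ZMod m)ˣ).card := Finset.card_le_card h1
        _ ≤ 2 := Finset.card_le_two
    rw [ZMod.card_units_eq_totient] at hcard
    omega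
  · have hr3 : 3 ≤ r := by
      rcases Nat.lt_or_ge r 3 with h1 | h1
      · exfalso
        omega
      · exact h1
    refine Or.inr (Or.inr ⟨D, hD, hsg, ?_, hda, hind, p2_of hm hr3 N.dim, Or.inl hr3⟩)
    rcases h with ⟨-, hs⟩ | ⟨hap, h | ⟨⟨u, hum, huc, hu1⟩, hE⟩⟩
    · have hW : HypW m r b := by
        refine ⟨(v : ZMod m).val, ZMod.val_lt _, ZMod.val_coe_unit_coprime v, ?_, ?_⟩
        · rw [← hsg]
          omega
        · have h1 := tSg m r s b hc (v : ZMod m).val (ZMod.val_lt _)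
            (ZMod.val_coe_unit_coprime v)
          rw [← hsg] at h1
          omega
      exact (gfw_of_MMx hr3 hW hc (fun h1 => hs (hM m r b h1)) N D hD).1
    · exact absurd h hr2
    · have hA : Aper D := tAp G m r D b hm hsg hap
      obtain ⟨w, hw⟩ := exists_unit hum huc
      have hone : ∃ s, D.p s = 1 := ⟨w, by rw [hsg, hw, hu1]⟩
      rw [← hD] at hE
      exact gfw_of_gfg (SEE.Gge_aux.gfg (good_end mods tIrrZ D hm (by omega) N.dim hone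
        (endZ_of_endQ D hE) hA))

/-- `D₀` comes from `D`: it is `D`, or the structure for `-Z`. -/
def Frm0 {G : AV} {m m₀ : ℕ} (D : Cyc G m) (D₀ : Cyc G m₀) : Prop :=
  (∃ h : m₀ = m, h ▸ D₀ = D) ∨ ∃ (hk : Odd m₀) (h : m = 2 * m₀), D₀ = Cnv_aux.D0 hk (h ▸ D)

/-- **New parts.** -/
theorem nw_data {M : (m r : ℕ) → (Fin (r + 1) → ℕ) → Set (Fin (r + 1) → ℂ)}
    (hM : ∀ m r b, MMx m r b ⊆ M m r b) {G : AV} {m r : ℕ} {b : Fin (r + 1) → ℕ}
    {s : Fin (r + 1) → ℂ} (h : Nw M G m r b s) : IsCM G ∨ finrank ℂ G.V = 2 ∨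
    ∃ (m₀ : ℕ) (D₀ : Cyc G m₀), Gd r D₀ ∧ Pat D₀ m (sg m r b) ∧
      ∃ (N : New G m s b) (D : Cyc G m), D.Z = N.Z ∧ Frm0 D D₀ := by
  obtain ⟨N, hc, h⟩ := h
  have hm : 3 ≤ m := hc.1
  rcases nw_pre hM N hc h with h1 | ⟨-, h1⟩ | ⟨D, hD, h1, h2, h3, h4, h5, h6⟩
  · exact Or.inl h1
  · exact Or.inr (Or.inl h1)
  refine Or.inr (Or.inr ?_)
  by_cases hm4 : m % 4 = 2
  swap
  · exact ⟨m, D, ⟨h2, h3, hm4, h4, h5, h6⟩, pat_self hm h1, N, D, hD, Or.inl ⟨rfl, rfl⟩⟩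
  obtain ⟨k, rfl⟩ : ∃ k, m = 2 * k := ⟨m / 2, by omega⟩
  have hk : Odd k := Nat.odd_iff.2 (by omega)
  refine ⟨k, Cnv_aux.D0 hk D, ⟨⟨?_, h2.hr, ?_, Cnv_aux.hit hk D h2.hit⟩, Cnv_aux.hda hk D h3,
    ?_, ?_, ?_, ?_⟩, pat_neg hk h1, N, D, hD, Or.inr ⟨hk, rfl, rfl⟩⟩
  · obtain ⟨j, rfl⟩ := hk
    omega
  · rw [h2.dim, Nat.totient_two_mul_of_odd hk]
  · obtain ⟨j, rfl⟩ := hk
    omega
  · obtain ⟨u, hu⟩ := h4
    exact ⟨Cnv_aux.Ec hk u, by rw [Cnv_aux.p_eq]; exact hu⟩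
  · obtain ⟨u, hu⟩ := h5
    exact ⟨Cnv_aux.Ec hk u, by rw [Cnv_aux.p_eq]; exact hu⟩
  · rw [← Nat.totient_two_mul_of_odd hk]
    exact h6

/-- **Picard type.** -/
theorem pic_data {G : AV} {m : ℕ} {Z : Module.End ℂ G.V} (hP : IsPic G m Z)
    (h3 : 3 ≤ finrank ℂ G.V) (hE : EndQ G Z) :
    ∃ (m₀ r : ℕ) (D : Cyc G m₀), Gd r D ∧ 3 ≤ r ∧ ∀ s, 0 < D.p s := by
  obtain ⟨D, h1, h2, h4⟩ := Gg_aux.pic hP h3 hE
  have hm : m = 3 ∨ m = 4 := hP.dim.imp And.left And.left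
  have hm3 : 3 ≤ m := by omega
  obtain ⟨s, hs⟩ := h1.one
  have hD := sum_p (D := D) hm3 h1.dim
  have hpos : ∀ u, 0 < D.p u := fun u =>
    (SEE.Cpe_aux.ind1 D hD hm (s := s) (by omega) (by omega) u).1
  exact ⟨m, finrank ℂ G.V, D, ⟨gfw_of_gfg (SEE.Gge_aux.gfg h1), fun R hR =>
    SEP.hasDA s_da SEP.s_DAB (Or.inr h4) hR, by omega, ⟨s, by omega, by omega⟩,
    p2_of hm3 h3 h1.dim, Or.inl h3⟩, h3, hpos⟩

end SEL
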