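import Pool.Agent.Lib.SE.L.BrX
import Pool.Agent.Lib.SE.X.Main

/-!
# PROJECT SE-L: the final theorem with one very general point (helper59)
-/

set_option autoImplicit false

noncomputable section

namespace SEL

/-- **THE FINAL THEOREM** with one very general point. -/
theorem finX : FinX Fac := finX_fac (jnx_of_x SEX.tJnx)

end SEL
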