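import Pool.Agent.Lib.SE.L.FnX
import Pool.Agent.Lib.SE.X.MX

/-!
# PROJECT SE-L: bridge to SE/X (helper59)
-/

set_option autoImplicit false

open Module

noncomputable section

namespace SEL

open HC HC.E HC.SE SEB SEQ SE SER SEE SES SEG

/-- From the form of SE/X. -/
theorem jnx_of_x (h : SEX.S_Jnx) : S_Jnx := by
  obtain ⟨M', h1, h2⟩ := h MMk (mmk_meagre SEU.tMxm)
  exact ⟨M', h1, fun p s hs => (h2 p s hs).1, fun p m r b m' r' b' s i i' hs hi hi' hr hr' hW hW'
    hc hc' T T' N N' D D' hD hD' => (h2 p s hs).2 m r b m' r' b' i i' hi hi' hr hr' hW hW' hc hc'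
      T T' N N' D D' hD hD'⟩

end SEL
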