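import Pool.Agent.Lib.SE.L.FnZ
import Pool.Agent.Lib.SE.L.BrX
import Pool.Agent.Lib.SE.X.Main
import Pool.Agent.Lib.SE.Z.Main
import Pool.Agent.Lib.SE.V.Main

/-!
# PROJECT SE-L: the final theorem for very general points of the line (helper59)
-/

set_option autoImplicit false

noncomputable section

namespace SEL

/-- **THE FINAL THEOREM**, very general points of the line, with threefolds. -/
theorem finZ : FinZ FacV := finZ_of (facV_dc SEV.modsV) SEZ.tJnz

/-- **THE FINAL THEOREM**, simple form. -/
theorem finW : FinW := finW_of finZ

/-- **THE FINAL THEOREM** with one very general point and threefolds. -/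
theorem finXV : FinX FacV := finX_of (facV_dc SEV.modsV) (jnx_of_x SEX.tJnx)

end SEL
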