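import Pool.Agent.Lib.SE.L.Spec
import Pool.Agent.Lib.SE.E.Cp
import Pool.Agent.Lib.SE.E.Gg

/-!
# PROJECT SE-L: compatible pairs (helper59)
-/

set_option autoImplicit false

open Module

noncomputable section

namespace SEL

open HC HC.E HC.SE SEB SEQ SER SE SEE SEG

namespace Cp_aux

theorem lift {m : ℕ} (hm : 3 ≤ m) (v : (ZMod m)ˣ) :
    ∃ u : ℕ, u.Coprime (2 * m) ∧ (u : ZMod m) = v := by
  haveI : NeZero (2 * m) := ⟨by omega⟩
  obtain ⟨t, ht⟩ := ZMod.unitsMap_surjective (Dvd.intro_left 2 rfl : m ∣ 2 * m) v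
  refine ⟨(t : ZMod (2 * m)).val, ZMod.val_coe_unit_coprime t, ?_⟩
  rw [← ht, ZMod.unitsMap_val, ZMod.natCast_val]

theorem cop {m μ : ℕ} (hμ : μ = m ∨ (Odd m ∧ μ = 2 * m)) (x : ℕ) :
    x.Coprime (2 * μ) ↔ x.Coprime (2 * m) := by
  rcases hμ with rfl | ⟨-, rfl⟩
  · exact Iff.rfl
  · simp only [Nat.coprime_mul_iff_right]
    tauto

theorem dvd2 {m μ : ℕ} (hμ : μ = m ∨ (Odd m ∧ μ = 2 * m)) : μ ∣ 2 * m := by
  rcases hμ with rfl | ⟨-, rfl⟩
  · exact Dvd.intro_left 2 rfl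
  · exact dvd_rfl

theorem lcm2 {m μ : ℕ} (hμ : μ = m ∨ (Odd m ∧ μ = 2 * m)) : Nat.lcm 2 μ = Nat.lcm 2 m := by
  rcases hμ with rfl | ⟨h, rfl⟩
  · rfl
  · rw [Nat.Coprime.lcm_eq_mul (Nat.coprime_two_left.2 h)]
    exact Nat.lcm_eq_right ⟨m, rfl⟩

theorem inv {N : ℕ} (hN : 0 < N) {c : ℕ} (hc : c.Coprime N) :
    ∃ d : ℕ, d.Coprime N ∧ c * d ≡ 1 [MOD N] := by
  haveI : NeZero N := ⟨by omega⟩
  refine ⟨(((ZMod.unitOfCoprime c hc)⁻¹ : (ZMod N)ˣ) : ZMod N).val,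
    ZMod.val_coe_unit_coprime _, ?_⟩
  rw [← ZMod.natCast_eq_natCast_iff]
  push_cast
  rw [ZMod.natCast_zmod_val, ← ZMod.coe_unitOfCoprime c hc, ← Units.val_mul, mul_inv_cancel,
    Units.val_one]

theorem core {m r : ℕ} (hm : 3 ≤ m) {μ μ' : ℕ} (hμ : μ = m ∨ (Odd m ∧ μ = 2 * m))
    (hμ' : μ' = m ∨ (Odd m ∧ μ' = 2 * m)) {p p' : ℕ → ℕ}
    (hp : ∀ u u', u ≡ u' [MOD μ] → p u = p u') {P P' : (ZMod m)ˣ → ℕ} {c c' : ℕ}
    (hc : c.Coprime (2 * m)) (hc' : c'.Coprime (2 * m))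
    (h : ∀ (v : (ZMod m)ˣ) (u : ℕ), u.Coprime (2 * m) → (u : ZMod m) = v → P v = p (c * u))
    (h' : ∀ (v : (ZMod m)ˣ) (u : ℕ), u.Coprime (2 * m) → (u : ZMod m) = v → P' v = p' (c' * u))
    (hC : Cpt μ μ' r r p p') (hind : ∃ v, 0 < P v ∧ P v < r) (g : (ZMod m)ˣ)
    (hg : ∀ u, (0 < P u ∧ P u < r) ∨ (0 < P' (g * u) ∧ P' (g * u) < r) → P' (g * u) = P u) :
    (∀ u, P u = P' (g * u)) ∨ (r = 2 ∧ ∀ u, P' (g * u) + P u = 2) := by
  obtain ⟨d, hd, hcd⟩ := inv (by omega) hc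
  obtain ⟨γ, hγ, hγg⟩ := lift hm g
  have hcm : ∀ {x : ℕ}, x.Coprime (2 * m) → x.Coprime m := fun hx =>
    Nat.Coprime.coprime_dvd_right (Dvd.intro_left 2 rfl) hx
  let U : ∀ x : ℕ, x.Coprime (2 * m) → (ZMod m)ˣ := fun x hx => ZMod.unitOfCoprime x (hcm hx)
  have hU : ∀ (x : ℕ) (hx : x.Coprime (2 * m)), (x : ZMod m) = (U x hx : ZMod m) := fun x hx =>
    (ZMod.coe_unitOfCoprime x (hcm hx)).symm
  have key1 : ∀ w (hw : w.Coprime (2 * m)), P (U (d * w) (hd.mul_left hw)) = p w := by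
    intro w hw
    have hdw : (d * w).Coprime (2 * m) := hd.mul_left hw
    rw [h _ (d * w) hdw (hU (d * w) hdw)]
    refine hp _ _ (Nat.ModEq.of_dvd (dvd2 hμ) ?_)
    have h1 := hcd.mul_right w
    rwa [one_mul, mul_assoc] at h1
  have key2 : ∀ w (hw : w.Coprime (2 * m)),
      P' (g * U (d * w) (hd.mul_left hw)) = p' (c' * γ * d * w) := by
    intro w hw
    have hdw : (d * w).Coprime (2 * m) := hd.mul_left hw
    rw [h' (g * U (d * w) hdw) (γ * (d * w)) (hγ.mul_left hdw) (by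
      rw [Units.val_mul, ← hγg, ← hU (d * w) hdw]
      push_cast
      ring)]
    congr 1
    ring
  have ht : (c' * γ * d).Coprime (2 * m) := (hc'.mul_left hγ).mul_left hd
  have hback : ∀ v : (ZMod m)ˣ, ∃ (w : ℕ) (hw : w.Coprime (2 * m)),
      U (d * w) (hd.mul_left hw) = v := by
    intro v
    obtain ⟨u, hu, huv⟩ := lift hm v
    have hcu : (c * u).Coprime (2 * m) := hc.mul_left hu
    refine ⟨c * u, hcu, ?_⟩
    apply Units.ext
    rw [← hU (d * (c * u)) (hd.mul_left hcu), ← huv, ZMod.natCast_eq_natCast_iff]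
    have h1 := (hcd.mul_right u).of_dvd (Dvd.intro_left 2 rfl : m ∣ 2 * m)
    have h2 : d * (c * u) = c * d * u := by ring
    rw [h2]
    rwa [one_mul] at h1
  have hCC := hC rfl (by rw [lcm2 hμ, lcm2 hμ']) ?_ (c' * γ * d) ((cop hμ _).2 ht) ?_
  · rcases hCC with h1 | ⟨h1, h2⟩
    · refine Or.inl fun v => ?_
      obtain ⟨w, hw, rfl⟩ := hback v
      rw [key1 w hw, key2 w hw, h1 w ((cop hμ _).2 hw)]
    · refine Or.inr ⟨h1, fun v => ?_⟩
      obtain ⟨w, hw, rfl⟩ := hback v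
      rw [key1 w hw, key2 w hw, h2 w ((cop hμ _).2 hw)]
  · obtain ⟨v, hv⟩ := hind
    obtain ⟨w, hw, rfl⟩ := hback v
    rw [key1 w hw] at hv
    exact ⟨w, (cop hμ _).2 hw, hv⟩
  · intro w hw hw'
    have hw2 := (cop hμ _).1 hw
    have h1 := hg (U (d * w) (hd.mul_left hw2))
    rw [key1 w hw2, key2 w hw2] at h1
    exact h1 hw'

/-- Different `m`. -/
theorem diff {T T' : AV} {m m' r : ℕ} (D : Cyc T m) (D' : Cyc T' m') (hm : 3 ≤ m) (hm' : 3 ≤ m')
    (h4 : m % 4 ≠ 2) (h4' : m' % 4 ≠ 2) (hne : m ≠ m') (hr : (m = 3 ∨ m' = 3) → 3 ≤ r) :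
    Cpv D D' r r := by
  by_cases h34 : m = 3 ∧ m' = 4
  · exact Or.inr (Or.inr (Or.inr (Or.inr ⟨hr (Or.inl h34.1), Or.inl h34⟩)))
  by_cases h43 : m = 4 ∧ m' = 3
  · exact Or.inr (Or.inr (Or.inr (Or.inr ⟨hr (Or.inr h43.2), Or.inr h43⟩)))
  obtain ⟨M, hM, hM', ρ, hM0, h⟩ := tSp4 m m' hm hm' h4 h4' hne h34 h43
  rcases h with ⟨h1, h2, h3⟩ | ⟨h1, h2, h3⟩
  · exact Or.inr (Or.inl (Cpe_aux.nat_unit hM hM' hM0 ρ h1 h2 h3))
  · obtain ⟨ρ, g1, g2⟩ := Cpe_aux.nat_unit hM' hM hM0 ρ h1 h2 h3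
    exact Or.inr (Or.inr (Or.inl ⟨ρ, by rwa [mul_comm], g2⟩))

theorem tot3 {m r : ℕ} (h : 3 ≤ r ∨ 2 < m.totient) (h3 : m = 3) : 3 ≤ r := by
  subst h3
  rcases h with h | h
  · exact h
  · exact absurd h (by decide)

end Cp_aux

open Cp_aux

/-- **Compatible pairs.** -/
theorem cpv_of {G G' : AV} {m m' r r' : ℕ} {D : Cyc G m} {D' : Cyc G' m'} (hG : Gd r D)
    (hG' : Gd r' D')
    (hC : (∀ s, 0 < D.p s) ∨ (∀ s, 0 < D'.p s) ∨ ∃ (μ μ' : ℕ) (p p' : ℕ → ℕ), Pat D μ p ∧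
      Pat D' μ' p' ∧ Cpt μ μ' r r' p p') : Cpv D D' r r' := by
  by_cases hrr : r = r'
  swap
  · exact Or.inl hrr
  subst hrr
  have hm := hG.gf.hm
  have hD : ∀ s, D.p s + D.p (-s) = r := fun s =>
    (tDim tPj tTw (tBas tPj) G m r D hG.gf.hm hG.gf.dim s).2
  have hD' : ∀ s, D'.p s + D'.p (-s) = r := fun s =>
    (tDim tPj tTw (tBas tPj) G' m' r D' hG'.gf.hm hG'.gf.dim s).2
  by_cases hmm : m = m'
  swap
  · refine diff D D' hG.gf.hm hG'.gf.hm hG.m4 hG'.m4 hmm fun h3 => ?_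
    rcases h3 with h3 | h3
    · exact tot3 hG.t2 h3
    · exact tot3 hG'.t2 h3
  subst hmm
  refine Or.inr (Or.inr (Or.inr (Or.inl ⟨rfl, fun g hg => ?_⟩)))
  change ∀ u, (0 < D.p u ∧ D.p u < r) ∨ (0 < D'.p (g * u) ∧ D'.p (g * u) < r) →
      D'.p (g * u) = D.p u at hg
  change (∀ u, D.p u = D'.p (g * u)) ∨ (r = 2 ∧ ∀ u, D'.p (g * u) + D.p u = 2)
  rcases hC with hp | hp' | ⟨μ, μ', p, p', ⟨a1, a2, c, a3, a4⟩, ⟨b1, b2, c', b3, b4⟩, hC⟩
  · refine Or.inl fun u => (hg u (Or.inl ⟨hp u, ?_⟩)).symm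
    have h1 := hD u
    have h2 := hp (-u)
    omega
  · refine Or.inl fun u => (hg u (Or.inr ⟨hp' _, ?_⟩)).symm
    have h1 := hD' (g * u)
    have h2 := hp' (-(g * u))
    omega
  · exact core hm a1 b1 a2 a3 b3 a4 b4 hC hG.ind g hg

/-- **No multipliers**: (*) holds for equal exponents. -/
theorem cpt_self {m r : ℕ} {b : Fin (r + 1) → ℕ} (hm : 3 ≤ m)
    (hsum : ∀ u < m, u.Coprime m → sg m r b u + sg m r b (m - u) = r) (hap : AperC m r b)
    (hex : ∃ u < m, u.Coprime m ∧ 0 < sg m r b u ∧ 0 < sg m r b (m - u) ∧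
      (sg m r b u ≠ sg m r b (m - u) ∨ r = 2)) : Cpt m m r r (sg m r b) (sg m r b) := by
  intro _ _ _ t ht hA
  have hm0 : 0 < m := by omega
  haveI : NeZero m := ⟨by omega⟩
  have hcm : ∀ {x : ℕ}, x.Coprime (2 * m) → x.Coprime m := fun hx =>
    Nat.Coprime.coprime_dvd_right (Dvd.intro_left 2 rfl) hx
  have hper : ∀ {u u' : ℕ}, u ≡ u' [MOD m] → sg m r b u = sg m r b u' := by
    intro u u' h
    have h1 : ∀ j, (u * b j) % m = (u' * b j) % m := fun j => h.mul_right _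
    unfold sg
    simp only [h1]
  -- (*) for units modulo `m`
  have hA' : ∀ u, u.Coprime m → (0 < sg m r b u ∧ sg m r b u < r) ∨
      (0 < sg m r b (t * u) ∧ sg m r b (t * u) < r) → sg m r b (t * u) = sg m r b u := by
    intro u hu h
    obtain ⟨w, hw, hwu⟩ := lift hm (ZMod.unitOfCoprime u hu)
    rw [ZMod.coe_unitOfCoprime, ZMod.natCast_eq_natCast_iff] at hwu
    have e1 := hper hwu
    have e2 := hper (hwu.mul_left t)
    have h1 := hA w hw
    rw [e1, e2] at h1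
    exact h1 h
  have hsum' : ∀ u, u.Coprime m → sg m r b u + sg m r b (m - u % m) = r := by
    intro u hu
    have h1 := hsum (u % m) (Nat.mod_lt _ hm0) (by
      rw [Nat.coprime_iff_gcd_eq_one, ← Nat.gcd_rec, Nat.gcd_comm]
      exact hu)
    have h2 := hper (Nat.mod_modEq u m)
    omega
  have htm := hcm ht
  have hg := hap (t % m) (Nat.mod_lt _ hm0) (by
      rw [Nat.coprime_iff_gcd_eq_one, ← Nat.gcd_rec, Nat.gcd_comm]
      exact htm) (fun u hu huc => by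
    have e1 : sg m r b ((u * (t % m)) % m) = sg m r b (t * u) := by
      refine hper ?_
      calc (u * (t % m)) % m ≡ u * (t % m) [MOD m] := Nat.mod_modEq _ _
        _ ≡ u * t [MOD m] := (Nat.mod_modEq t m).mul_left u
        _ = t * u := mul_comm _ _
    have e2 : (u * (t % m)) % m = (t * u) % m := by
      rw [Nat.mul_mod, Nat.mod_mod, ← Nat.mul_mod, mul_comm]
    have s1 := hsum' u huc
    rw [Nat.mod_eq_of_lt hu] at s1
    have s2 := hsum' (t * u) (Nat.Coprime.mul_left htm huc)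
    rw [e1, e2]
    by_cases h1 : (0 < sg m r b u ∧ sg m r b u < r) ∨
      (0 < sg m r b (t * u) ∧ sg m r b (t * u) < r)
    · have h2 := hA' u huc h1
      have h3 : sg m r b (m - (t * u) % m) = sg m r b (m - u) := by omega
      rw [h2, h3]
    · rw [not_or] at h1
      have z : ∀ a c : ℕ, a + c = r → ¬ (0 < a ∧ a < r) → a * c = 0 := by
        intro a c h2 h3
        rcases Nat.eq_zero_or_pos a with h4 | h4
        · rw [h4, zero_mul]
        · have h5 : c = 0 := by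
            by_contra h6
            exact h3 ⟨h4, by omega⟩
          rw [h5, mul_zero]
      rw [z _ _ s1 h1.1, z _ _ s2 h1.2])
  rcases hg with h1 | h1
  · refine Or.inl fun u _ => hper ?_
    have h2 : t ≡ 1 [MOD m] := by
      have h3 : t % m ≡ t [MOD m] := Nat.mod_modEq t m
      rw [h1] at h3
      exact h3.symm
    have h3 := h2.mul_right u
    rwa [one_mul] at h3
  · -- `t = -1`
    have hneg : ∀ u, u.Coprime m → sg m r b (t * u) + sg m r b u = r := by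
      intro u hu
      have h0 := hsum' u hu
      suffices h9 : t * u ≡ m - u % m [MOD m] by
        have h10 := hper h9
        omega
      have h2 : t + 1 ≡ 0 [MOD m] := by
        have h3 : t % m + 1 ≡ t + 1 [MOD m] := (Nat.mod_modEq t m).add_right 1
        rw [h1, Nat.sub_add_cancel (by omega)] at h3
        have h4 : m ≡ 0 [MOD m] := by simp [Nat.ModEq]
        exact h3.symm.trans h4
      have h5 : t * u + u ≡ 0 [MOD m] := by
        have h6 := h2.mul_right u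
        rwa [add_mul, one_mul, zero_mul] at h6
      have h7 : m - u % m + u ≡ 0 [MOD m] := by
        have h8 : m - u % m + u % m ≡ m - u % m + u [MOD m] :=
          (Nat.mod_modEq u m).add_left _
        rw [Nat.sub_add_cancel (Nat.mod_lt _ hm0).le] at h8
        have h4 : m ≡ 0 [MOD m] := by simp [Nat.ModEq]
        exact h8.symm.trans h4
      exact Nat.ModEq.add_right_cancel' u (h5.trans h7.symm)
    obtain ⟨u, hu, huc, hu1, hu2, hu3⟩ := hex
    have s1 := hsum u hu huc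
    have h2 := hA' u huc (Or.inl ⟨hu1, by omega⟩)
    have h3 := hneg u huc
    have hr2 : r = 2 := by
      rcases hu3 with h4 | h4
      · omega
      · exact h4
    refine Or.inr ⟨hr2, fun w hw => ?_⟩
    rw [hneg w (hcm hw), hr2]

/-- (*) for `b = 1`. -/
theorem cpt_one (m r : ℕ) (h : Cle m r) :
    Cpt m m r r (sg m r fun _ => 1) (sg m r fun _ => 1) := by
  obtain ⟨h1, h2⟩ := tPr4 m r h.cl
  have hcov : IsCov m (fun j : Fin (r + 1) => ((j : ℕ) : ℂ)) (fun _ => 1) :=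
    isCov_one' h.1 h.2.2.2.1 (fun i j hij => by
      have h3 : ((i : ℕ) : ℂ) = ((j : ℕ) : ℂ) := hij
      exact Fin.ext (by exact_mod_cast h3))
  exact cpt_self h.1 (tSg m r _ _ hcov) h1 h2

end SEL
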