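import Pool.Agent.Lib.SE.L.Spec
import Pool.Agent.Lib.SE.G.PTw

/-!
# PROJECT SE-L: pairs and products with the symmetric condition (helper59, after helper42)
-/

set_option autoImplicit false

open Module

noncomputable section

namespace SEL

open HC HC.E HC.SE SEB SEQ SEG SEQ.B_aux SEQ.Bg_aux SEQ.PPg_aux

/-- The same `m`: one link gives an isogeny. -/
theorem linked_isgv {T T' : AV} {m r : ℕ} {D : Cyc T m} {D' : Cyc T' m} (hD : GFw D r)
    (hD' : GFw D' r)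
    (hc : ∀ g : (ZMod m)ˣ,
      (∀ u, (0 < D.p u ∧ D.p u < r) ∨ (0 < D'.p (g * u) ∧ D'.p (g * u) < r) →
        D'.p (g * u) = D.p u) →
      (∀ u, D.p u = D'.p (g * u)) ∨ (r = 2 ∧ ∀ u, D'.p (g * u) + D.p u = 2))
    {h : Set (Pr2 T T')} (hh : HLie2 D D' h) {s t : (ZMod m)ˣ} (hl : Lnk D D' h s t)
    (hprod : ∀ ρ : (ZMod m)ˣ, D.p (ρ * s) * D.p (-(ρ * s)) = D'.p (ρ * t) * D'.p (-(ρ * t))) :
    Isg T T' := by
  have hm := hD.hm
  have hm0 : m ≠ 0 := by omega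
  have hNZ : NeZero m := ⟨hm0⟩
  obtain ⟨t', ht', hθ⟩ : ∃ t' : (ZMod m)ˣ, (t' = t ∨ t' = -t) ∧
      ∃ θ : Ws D s ≃ₗ[ℂ] Ws D' t', Itw h θ := by
    rcases tTh0g tPrj tCl2 tInt tIntG tDua T T' m m r D D' hD hD' h hh s t hl with hθ | hθ
    · exact ⟨t, Or.inl rfl, hθ⟩
    · exact ⟨-t, Or.inr rfl, hθ⟩
  have hprod' : ∀ ρ : (ZMod m)ˣ,
      D.p (ρ * s) * D.p (-(ρ * s)) = D'.p (ρ * t') * D'.p (-(ρ * t')) := by
    intro ρ
    rcases ht' with rfl | rfl
    · exact hprod ρ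
    · rw [hprod ρ, mul_neg, neg_neg, mul_comm]
  obtain ⟨g, rfl⟩ : ∃ g : (ZMod m)ˣ, t' = g * s := ⟨t' * s⁻¹, (inv_mul_cancel_right _ _).symm⟩
  have hpr : ∀ u, D.p u * D.p (-u) = D'.p (g * u) * D'.p (-(g * u)) := by
    intro u
    have h1 := hprod' (u * s⁻¹)
    rw [inv_mul_cancel_right] at h1
    have h2 : u * s⁻¹ * (g * s) = g * u := by
      rw [mul_comm g s, ← mul_assoc, inv_mul_cancel_right, mul_comm]
    rwa [h2] at h1
  have hr : ∀ u, D.p u + D.p (-u) = r := fun u => (dim_all T m r D hm hD.dim u).2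
  have hr' : ∀ u, D'.p u + D'.p (-u) = r := fun u => (dim_all T' m r D' hm hD'.dim u).2
  -- at every character
  have hall : ∀ u, ∃ θ : Ws D u ≃ₗ[ℂ] Ws D' (g * u), Itw h θ := by
    intro u
    obtain ⟨θ, hθ⟩ := hθ
    refine itw_cast (D := D) (D' := D') (by rw [rho_self, inv_mul_cancel_right]) ?_
      (tGtr tPrj tRSH tGaH T T' m m r D D' hD hD' h hh s _ θ hθ m dvd_rfl dvd_rfl hm0 (u * s⁻¹))
    rw [rho_self, mul_comm g s, ← mul_assoc, inv_mul_cancel_right, mul_comm]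
  have hsig : ∀ u, 0 < D.p u → D.p u < r → D'.p (g * u) = D.p u := by
    intro u h0 h1
    obtain ⟨θ, hθ⟩ := hall u
    exact tJc tPrj tCl2 tTrJ T T' m m r D D' hD hD' h hh u _ θ hθ h0 h1
  have hsig' : ∀ u, (0 < D.p u ∧ D.p u < r) ∨ (0 < D'.p (g * u) ∧ D'.p (g * u) < r) →
      D'.p (g * u) = D.p u := by
    rintro u (⟨h0, h1⟩ | ⟨h0, h1⟩)
    · exact hsig u h0 h1
    · have h2 := hpr u
      have h3 := hr' (g * u)
      have h4 : 0 < D'.p (g * u) * D'.p (-(g * u)) := Nat.mul_pos h0 (by omega)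
      rw [← h2] at h4
      have h5 : 0 < D.p u := Nat.pos_of_mul_pos_right h4
      have h6 : 0 < D.p (-u) := Nat.pos_of_mul_pos_left h4
      have h7 := hr u
      exact hsig u h5 (by omega)
  have fin : ∀ g' : (ZMod m)ˣ, (∀ u, D.p u = D'.p (g' * u)) →
      (∃ θ : Ws D s ≃ₗ[ℂ] Ws D' (g' * s), Itw h θ) → Isg T T' := by
    rintro g' hg' ⟨θ, hθ⟩
    exact same_isgw tPrj tTh1g (tCutg tTrS tTrJ) (tTrE tTrS) (tHomg tRSH) (tIsog tPrj tGaH) hD hD'
      g' hg' hh s θ hθ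
  rcases hc g hsig' with hc' | ⟨hr2, hc'⟩
  · exact fin g hc' (hall s)
  · subst hr2
    obtain ⟨θ, hθ⟩ := hall s
    refine fin (-g) (fun u => ?_) (itw_cast rfl ?_
      (tR2t tPrj tDua T T' m m D D' hD' h hh s _ θ hθ))
    · have h1 := hc' u
      have h2 := hr' (g * u)
      have h3 : -g * u = -(g * u) := neg_mul _ _
      rw [h3]
      omega
    · rw [neg_mul]

/-- **PPv**: pairs. -/
theorem tPPv : PPv := by
  intro T T' m m' r r' D D' hG hG' hC hI h hh s t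
  by_contra hno
  have hm := hG.hm
  have hm' := hG'.hm
  obtain ⟨p1, p2, -, -, p5⟩ := tPrj T T' m m' D D' h hh
  have hit1 : ∀ s, Hits D (Prod.fst '' h) {s} := fun s => hG.hit _ p1 {s} (Lp_half hm s)
  have hit2 : ∀ t, Hits D' (Prod.snd '' h) {t} := fun t => hG'.hit _ p2 {t} (Lp_half hm' t)
  have hL : Lnk D D' h s t :=
    (tGt2 tPrj tCl2 T T' m m' D D' hm hm' h hh s t (hit1 s) (hit2 t)).resolve_left hno
  have b1 := tLrg tPrj tCl2 (tGt2 tPrj tCl2) tLI2 T T' m m' r r' D D' hG hG' h hh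
  have b2 := tLug tPrj T T' m m' r r' D D' hG hG' h hh
  have b3 := tLig T T' m m' r r' D D' hG hG' h b1 b2 s t hL
  have hrr : r = r' := (b1 s t hL).1
  subst hrr
  have b4 : ∀ u u', Lnk D D' h u u' → D.p u * D.p (-u) = D'.p u' * D'.p (-u') :=
    fun u u' hl => Lp_gen tPrj tCl2 D D' hm hm' h hh u u' (hit1 u) (hit2 u') hl
  rcases hC with c | c | c | c | c
  · exact b3 (Or.inl c)
  · exact b3 (Or.inr (Or.inl c))
  · exact b3 (Or.inr (Or.inr c))
  · obtain ⟨hmm, c⟩ := c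
    subst hmm
    refine hI (linked_isgv hG hG' c hh hL fun ρ => ?_)
    have h1 := b4 _ _ ((b1 s t hL).2 m dvd_rfl dvd_rfl (by omega) ρ)
    rw [rho_self, rho_self] at h1
    exact h1
  · exact no_link34 hG hG' c.1 c.2 hh (s := s) (t := t)
      (fun M hM hM' hM0 ρ => (b1 s t hL).2 M hM hM' hM0 ρ)

/-- Families of pairwise non isogenous good factors hit everything. -/
theorem hit_allv {q : ℕ} {T : Fin q → AV} {m r : Fin q → ℕ} (D : ∀ i, Cyc (T i) (m i))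
    (hG : ∀ i, GFw (D i) (r i)) (hC : ∀ i j, i ≠ j → Cpv (D i) (D j) (r i) (r j))
    (hI : ∀ i j, i ≠ j → ¬ Isg (T i) (T j)) (h : Set (Tup T)) (hh : HLieT D h)
    (F : Set (Ch m)) (hF : ∀ x ∈ F, neg x ∉ F) : HitsT D h F := by
  have hm : ∀ i, 3 ≤ m i := fun i => (hG i).hm
  obtain ⟨h1, h2⟩ := htT_all q T m D hm (fun i => (hG i).hit)
    (fun i j hij h hh s t => tPPv (T i) (T j) (m i) (m j) (r i) (r j) (D i) (D j) (hG i) (hG j)
      (hC i j hij) (hI i j hij) h hh s t) h hh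
  exact rbT_all q T m D hm h hh h1 h2 F hF

/-- They are independent: the commutators contain all of `su`. -/
theorem su_allv {q : ℕ} {T : Fin q → AV} {m r : Fin q → ℕ} (D : ∀ i, Cyc (T i) (m i))
    (hG : ∀ i, GFw (D i) (r i)) (hC : ∀ i j, i ≠ j → Cpv (D i) (D j) (r i) (r j))
    (hI : ∀ i j, i ≠ j → ¬ Isg (T i) (T j)) (h : Set (Tup T)) (hh : HLieT D h) (X : Tup T)
    (hX : ∀ i, IsSU (D i) (X i)) : X ∈ Submodule.span ℝ (ComT h) :=
  fiT_all q T m D (fun i => (hG i).hm) h hh (hit_allv D hG hC hI h hh) X hX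

end SEL
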