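import Pool.Agent.Lib.SE.L.SpecM
import Pool.Agent.Lib.SE.L.Cp
import Pool.Agent.Lib.SE.L.Dt
import Pool.Agent.Lib.SE.L.PPv
import Pool.Agent.Lib.SE.G.Fn
import Pool.Agent.Lib.SE.S.All
import Pool.Agent.Lib.SE.S.DcA
import Pool.Agent.Lib.SE.S.DcB
import Pool.Agent.Lib.SE.U.Main

/-!
# PROJECT SE-L: assembly of the final theorem (helper59)
-/

set_option autoImplicit false

open Module

noncomputable section

namespace SEL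

open HC HC.E HC.SE SEB SEQ SE SER SEE SES SEG

/-- Pairwise independent good factors hit everything. -/
theorem hit_allI {q : ℕ} {T : Fin q → AV} {m r : Fin q → ℕ} (D : ∀ i, Cyc (T i) (m i))
    (hG : ∀ i, GFw (D i) (r i)) (hI : ∀ i j, i ≠ j → Ind (D i) (D j)) (h : Set (Tup T))
    (hh : HLieT D h) (F : Set (Ch m)) (hF : ∀ x ∈ F, neg x ∉ F) : HitsT D h F := by
  have hm : ∀ i, 3 ≤ m i := fun i => (hG i).hm
  obtain ⟨h1, h2⟩ := htT_all q T m D hm (fun i => (hG i).hit)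
    (fun i j hij h hh s t => hI i j hij h hh s t) h hh
  exact rbT_all q T m D hm h hh h1 h2 F hF

/-- They are independent: the commutators contain all of `su`. -/
theorem su_allI {q : ℕ} {T : Fin q → AV} {m r : Fin q → ℕ} (D : ∀ i, Cyc (T i) (m i))
    (hG : ∀ i, GFw (D i) (r i)) (hI : ∀ i j, i ≠ j → Ind (D i) (D j)) (h : Set (Tup T))
    (hh : HLieT D h) (X : Tup T) (hX : ∀ i, IsSU (D i) (X i)) :
    X ∈ Submodule.span ℝ (ComT h) :=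
  fiT_all q T m D (fun i => (hG i).hm) h hh (hit_allI D hG hI h hh) X hX

/-- Families of pairwise non isogenous abelian varieties of the class `K` have independent data. -/
def Fam (K : AV → Prop) : Prop :=
  ∀ (q : ℕ) (R : Fin q → AV), (∀ i, K (R i)) → (∀ i i', i ≠ i' → ¬ Isg (R i) (R i')) →
    ∃ (m r : Fin q → ℕ) (D : ∀ i, Cyc (R i) (m i)), (∀ i, Gd (r i) (D i)) ∧
      ∀ i i', i ≠ i' → Ind (D i) (D i')

/-- The classes in the final theorem. -/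
def Cls (K : AV → Prop) (G : AV) : Prop := (K G ∨ IsRM G) ∨ IsSy G

/-- The conclusion of the final theorem for `B`. -/
def Con (B : AV) : Prop :=
  ∀ (T : AV) (q N : ℕ) (J : Fin q → AV) (j : Fin N → Fin q) (m : Fin q → ℕ)
    (Z : ∀ i, Module.End ℂ (J i).V) (E : ∀ i, (J i).V →ₗ[ℝ] (J i).V →ₗ[ℝ] ℝ)
    (ψ : T.V ≃ₗ[ℂ] B.V × (∀ n, (J (j n)).V)),
    (∀ i, Fct (J i) (m i) (Z i)) → (∀ i, IsPol (J i) (Z i) (E i)) →
    (∀ v ∈ T.L, ∃ k : ℕ, k ≠ 0 ∧ k • (ψ v).1 ∈ B.L ∧ ∀ n, k • (ψ v).2 n ∈ (J (j n)).L) →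
    ∀ (d : ℕ) (c : Hlg T d), IsHodge T d c → SUK Z E ψ c → Alg2 T d c

open SEQ.Fn_aux in
/-- **THE MAIN THEOREM** for a class `K`. -/
theorem con_of {K : AV → Prop} (hK : Fam K) {B : AV} (hB : Dc (Cls K) B) : Con B := by
  have hI : Ing := SES.ing
  obtain ⟨A, N', G, hA, hG', hB⟩ := hB
  intro T q N J j m Z E ψ hF hE hψ d c hc hS
  obtain ⟨B₁, N₁₀, N₃, G₁₀, G₃, hG0, hG3, hB1, hBB⟩ :=
    tSpl (fun G => K G ∨ IsRM G) IsSy A B N' G hG' hB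
  obtain ⟨Y, N₁', N₂, G₁, G₂, hG1, hG2, hY, hBY⟩ := tSpl K IsRM A B₁ N₁₀ G₁₀ hG0 hB1
  obtain ⟨A', q₁, N₁, R, k, hA', hR, hne, hYR⟩ := SEQ.tRep HC.E.tIsoInv K A Y N₁' G₁ hA
    (fun n => Or.inr (hG1 n)) hY
  obtain ⟨q', S, κ, hSy, hne', hBS⟩ := hI.rep HC.E.tIsoInv IsSy B₁ B N₃ G₃ hG3 hBB
  obtain ⟨m₁, r₁, D₁, h1, hInd⟩ := hK q₁ R hR hne
  choose D hDZ hDψ using fun i => cyc_fct (hF i) (hE i)
  obtain rfl : (fun i => (D i).Z) = Z := funext hDZ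
  obtain rfl : (fun i => (D i).ψ) = E := funext hDψ
  have hg : ∀ i, GFw (D₁ i) (r₁ i) := fun i => (h1 i).gf
  have hm1 : ∀ i, 3 ≤ m₁ i := fun i => (hg i).hm
  have hDA : ∀ (J : AV) (m : ℕ) (Z : Module.End ℂ J.V) (R : J.V →ₗ[ℝ] J.V →ₗ[ℝ] ℝ),
      Fct J m Z → IsPol J Z R → HasDA (fun T m c => HC.SE.Alg2 T m c) m J Z R :=
    fun _ _ _ _ hF hP => SEP.hasDA s_da SEP.s_DAB hF hP
  have hHT : HT D₁ := fun h hh F hF' => hit_allI D₁ hg hInd h hh F hF'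
  have hp2 : ∀ i, ∃ s, 2 ≤ (D₁ i).p s := fun i => (h1 i).p2
  -- the symplectic factors
  choose h2S E' hRf hSp using hSy
  choose f hf using fun i => hI.fm (S i) (E' i) (hRf i)
  have hTu : TuD S E' f := ⟨h2S, hRf, hf, hSp, hne'⟩
  have hLM : ∀ B₂ : AV, LM D₁ B₂ S E' := fun B₂ =>
    hI.lm q₁ q' R m₁ r₁ D₁ B₂ S E' f hTu hm1 (fun i => (hg i).dim) (h0 D₁ hm1 hHT hp2 B₂)
  refine hI.th A' Y B₁ B T q₁ N₁ N₂ q N R k m₁ D₁ G₂ J j m D q' N₃ S κ E' ψ hA' hRf hLM hG2 hYR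
    hBY hBS hψ ?_ (fun C d c hc => hI.hc q' N₃ S κ E' f C hTu d c hc) d c hc hS
  intro T₁ ψ₁ hψ₁ d₁ c₁ hc₁ hS₁
  exact tThR tHlT tLiR tThQ tLX tOp4 tHr tLiS tKuR tTrR tRg A' Y B₁ T₁ q₁ N₁ N₂ q N R k m₁ D₁ G₂
    J j m D ψ₁ hA' hm1 (fun i => fct_three (hF i))
    (fun i => (h1 i).da (D₁ i).ψ (isPol_cyc (D₁ i)))
    (fun i => hDA _ _ _ _ (hF i) (hE i))
    (fun h hh X hX => su_allI D₁ hg hInd h hh X hX)
    (fun B₂ hB₂ => lrf q₁ R m₁ D₁ hm1 hHT hp2 B₂ hB₂)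
    hG2 hYR hBY hψ₁ d₁ c₁ hc₁ hS₁

/-! ## The class of FinL -/

/-- The class of the good factors in the final theorem, for given data. -/
def Kl (I : Type) (G₀ : I → AV) (μ ρ : I → ℕ) (p : I → ℕ → ℕ) (Q : I → Prop) (G : AV) : Prop :=
  ∃ (m r : ℕ) (D : Cyc G m), Gd r D ∧
    ((∀ s, 0 < D.p s) ∨ ∃ n, G = G₀ n ∧ Q n ∧ r = ρ n ∧ Pat D (μ n) (p n))

/-- Pairs which satisfy (*): independent data. -/
theorem fam_kl {I : Type} {G₀ : I → AV} {μ ρ : I → ℕ} {p : I → ℕ → ℕ} {Q : I → Prop}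
    (hC : ∀ n n', Q n → Q n' → Isg (G₀ n) (G₀ n') ∨ Cpt (μ n) (μ n') (ρ n) (ρ n') (p n) (p n')) :
    Fam (Kl I G₀ μ ρ p Q) := by
  intro q R hR hne
  choose m r D h1 h2 using hR
  refine ⟨m, r, D, h1, fun i i' hii h hh s t => ?_⟩
  refine tPPv _ _ _ _ _ _ (D i) (D i') (h1 i).gf (h1 i').gf (cpv_of (h1 i) (h1 i') ?_)
    (hne i i' hii) h hh s t
  rcases h2 i with hi | ⟨n, e1, e2, e3, e4⟩
  · exact Or.inl hi
  rcases h2 i' with hi | ⟨n', f1, f2, f3, f4⟩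
  · exact Or.inr (Or.inl hi)
  rcases hC n n' e2 f2 with hc | hc
  · rw [← e1, ← f1] at hc
    exact absurd hc (hne i i' hii)
  · rw [← e3, ← f3] at hc
    exact Or.inr (Or.inr ⟨_, _, _, _, e4, f4, hc⟩)

/-- Dimension at most `2`. -/
theorem dc_small (P : AV → Prop) (hR : ∀ G, IsRM G → P G) (hS : ∀ G, IsSy G → P G) {G : AV}
    (h : finrank ℂ G.V ≤ 2) : Dc P G := by
  obtain ⟨a1, a2, a3, -⟩ := SES.tDcA P
  obtain h0 | h1 | h2 : finrank ℂ G.V = 0 ∨ finrank ℂ G.V = 1 ∨ finrank ℂ G.V = 2 := by omega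
  · exact a1 G (SEG.isCM_zero h0)
  · exact a2 G (hR G (SEU.tSur.1 G h1))
  · rcases SEU.tSur.2 G h2 with h | h | ⟨E₁, E₂, e1, e2, h⟩ | h
    · exact a1 G h
    · exact a2 G (hR G h)
    · exact a3 G E₁ E₂ (a2 E₁ (hR E₁ (SEU.tSur.1 E₁ e1))) (a2 E₂ (hR E₂ (SEU.tSur.1 E₂ e2))) h
    · obtain ⟨E, hE⟩ := G.pol
      exact a2 G (hS G ⟨h2.ge, E, hE, h E hE⟩)

/-- The factors `Fac`. -/
theorem dc_fac {I : Type} {G₀ : I → AV} {μ ρ : I → ℕ} {p : I → ℕ → ℕ} {Q : I → Prop} {G : AV}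
    (h : Fac MMk G) : Dc (Cls (Kl I G₀ μ ρ p Q)) G := by
  obtain ⟨a1, a2, a3, -⟩ := SES.tDcA (Cls (Kl I G₀ μ ρ p Q))
  rcases h with h | h | h | h | h | ⟨m, Z, hP, h3, hE⟩
  · exact a1 G h
  · exact dc_small _ (fun G h => Or.inl (Or.inr h)) (fun G h => Or.inr h) h
  · exact a2 G (Or.inl (Or.inr h))
  · exact a2 G (Or.inr h)
  · refine a2 G (Or.inr (isSy_of_hy ?_))
    obtain ⟨r, s, N, h1, h2, h3, h4⟩ := h
    exact ⟨r, s, N, h1, h2, h3, fun h5 => h4 (Or.inr ⟨rfl, h5⟩)⟩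
  · obtain ⟨m₀, r, D, h1, -, h2⟩ := pic_data hP h3 hE
    exact a2 G (Or.inl (Or.inl ⟨m₀, r, D, h1, Or.inl h2⟩))

/-- The new parts. -/
theorem dc_nw {I : Type} {G₀ : I → AV} {μ ρ : I → ℕ} {β : ∀ n, Fin (ρ n + 1) → ℕ}
    {σ : ∀ n, Fin (ρ n + 1) → ℂ} (n : I) (h : Nw MMk (G₀ n) (μ n) (ρ n) (β n) (σ n)) :
    Dc (Cls (Kl I G₀ μ ρ (fun n => sg (μ n) (ρ n) (β n))
      fun n => Nw MMk (G₀ n) (μ n) (ρ n) (β n) (σ n))) (G₀ n) := by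
  obtain ⟨a1, a2, a3, -⟩ := SES.tDcA (Cls (Kl I G₀ μ ρ (fun n => sg (μ n) (ρ n) (β n))
      fun n => Nw MMk (G₀ n) (μ n) (ρ n) (β n) (σ n)))
  rcases nw_data (fun m r b s hs => Or.inl hs) h with h1 | h1 | ⟨m₀, D₀, h1, h2, -⟩
  · exact a1 _ h1
  · exact dc_small _ (fun G h => Or.inl (Or.inr h)) (fun G h => Or.inr h) h1.le
  · exact a2 _ (Or.inl (Or.inl ⟨m₀, ρ n, D₀, h1, Or.inr ⟨n, rfl, h, rfl, h2⟩⟩))

/-- **THE FINAL THEOREM: any exponents, all signature types.** -/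
theorem finL : FinL := by
  refine ⟨cpt_one, MMk, mmk_meagre SEU.tMxm, ?_⟩
  intro A B T N' G μ ρ β σ hA hG hC hB q N J j m Z E ψ hF hE hψ d c hc hS
  refine con_of (K := Kl (Fin N') G μ ρ (fun n => sg (μ n) (ρ n) (β n))
    fun n => Nw MMk (G n) (μ n) (ρ n) (β n) (σ n)) (fam_kl hC)
    (SES.tDcB SES.tDcA _ A B N' G ((SES.tDcA _).1 A hA) (fun n => ?_) hB) T q N J j m Z E ψ hF
    hE hψ d c hc hS
  rcases hG n with h | h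
  · exact dc_fac h
  · exact dc_nw n h

end SEL
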