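import Pool.Agent.Lib.SE.L.FnZ
import Pool.Agent.Lib.SE.K.Nw

/-!
# PROJECT SE-L: the simple form of the final theorem with four branch points (helper59)
-/

set_option autoImplicit false

open Module

noncomputable section

namespace SEL

open HC HC.E HC.SE SEB SEQ SE SER SEE SES SEG SEZ SEK FnM_aux

/-! ## The engine -/

/-- The data of a new part. -/
def NwD (G : AV) (m r : ℕ) (b : Fin (r + 1) → ℕ) (s : Fin (r + 1) → ℂ) : Prop :=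
  IsCov m s b ∧ (IsCM G ∨ finrank ℂ G.V = 2 ∨
    ∃ (m₀ : ℕ) (D₀ : Cyc G m₀), Gd r D₀ ∧ Pat D₀ m (sg m r b) ∧
      ∃ (N : New G m s b) (D : Cyc G m), D.Z = N.Z ∧ GFw D r ∧ Frm0 D D₀)

theorem nwD_of {G : AV} {m r : ℕ} {b : Fin (r + 1) → ℕ} {s : Fin (r + 1) → ℂ}
    (N : New G m s b) (hc : IsCov m s b)
    (h : IsCM G ∨ (r = 2 ∧ finrank ℂ G.V = 2) ∨ ∃ D : Cyc G m, D.Z = N.Z ∧
      (∀ u : (ZMod m)ˣ, D.p u = sg m r b (u : ZMod m).val) ∧ GFw D r ∧ HDa D ∧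
      (∃ u, 0 < D.p u ∧ D.p u < r) ∧ (∃ s, 2 ≤ D.p s) ∧ (3 ≤ r ∨ 2 < m.totient)) :
    NwD G m r b s := by
  have hm : 3 ≤ m := hc.1
  refine ⟨hc, ?_⟩
  rcases h with h1 | ⟨-, h1⟩ | ⟨D, hD, h1, h2, h3, h4, h5, h6⟩
  · exact Or.inl h1
  · exact Or.inr (Or.inl h1)
  refine Or.inr (Or.inr ?_)
  by_cases hm4 : m % 4 = 2
  swap
  · exact ⟨m, D, ⟨h2, h3, hm4, h4, h5, h6⟩, pat_self hm h1, N, D, hD, h2, Or.inl ⟨rfl, rfl⟩⟩
  obtain ⟨k, rfl⟩ : ∃ k, m = 2 * k := ⟨m / 2, by omega⟩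
  have hk : Odd k := Nat.odd_iff.2 (by omega)
  refine ⟨k, Cnv_aux.D0 hk D, ⟨⟨?_, h2.hr, ?_, Cnv_aux.hit hk D h2.hit⟩, Cnv_aux.hda hk D h3,
    ?_, ?_, ?_, ?_⟩, pat_neg hk h1, N, D, hD, h2, Or.inr ⟨hk, rfl, rfl⟩⟩
  · obtain ⟨j, rfl⟩ := hk
    omega
  · rw [h2.dim, Nat.totient_two_mul_of_odd hk]
  · obtain ⟨j, rfl⟩ := hk
    omega
  · obtain ⟨u, hu⟩ := h4
    exact ⟨Cnv_aux.Ec hk u, by rw [Cnv_aux.p_eq]; exact hu⟩
  · obtain ⟨u, hu⟩ := h5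
    exact ⟨Cnv_aux.Ec hk u, by rw [Cnv_aux.p_eq]; exact hu⟩
  · rw [← Nat.totient_two_mul_of_odd hk]
    exact h6

theorem nwD_nw {M : (m r : ℕ) → (Fin (r + 1) → ℕ) → Set (Fin (r + 1) → ℂ)}
    (hM : ∀ m r b, MMx m r b ⊆ M m r b) {G : AV} {m r : ℕ} {b : Fin (r + 1) → ℕ}
    {s : Fin (r + 1) → ℂ} (h : Nw M G m r b s) : NwD G m r b s := by
  obtain ⟨N, hc, h⟩ := h
  exact nwD_of N hc (nw_pre hM N hc h)

theorem nwD_k {G : AV} {m r : ℕ} {b : Fin (r + 1) → ℕ} {s : Fin (r + 1) → ℂ}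
    (N : New G m s b) (hc : IsCov m s b) (hr : r = 2) (hs : s ∉ MMr m r b) (hK : KlG m b)
    (h2 : ∃ u < m, u.Coprime m ∧ sg m r b u = 2) : NwD G m r b s :=
  nwD_of N hc (nwK_pre N hc hr hs hK h2)

/-- The class of the good factors in the final theorem, for given data. -/
def Kd (N' : ℕ) (G₀ : Fin N' → AV) (μ ρ : Fin N' → ℕ) (β : ∀ n, Fin (ρ n + 1) → ℕ)
    (σ : ∀ n, Fin (ρ n + 1) → ℂ) (G : AV) : Prop :=
  ∃ (m r : ℕ) (D₀ : Cyc G m), Gd r D₀ ∧ ((∀ s, 0 < D₀.p s) ∨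
    ∃ n, G = G₀ n ∧ NwD (G₀ n) (μ n) (ρ n) (β n) (σ n) ∧ r = ρ n ∧
      Pat D₀ (μ n) (sg (μ n) (ρ n) (β n)) ∧
      ∃ (N : New G (μ n) (σ n) (β n)) (D : Cyc G (μ n)), D.Z = N.Z ∧ GFw D (ρ n) ∧ Frm0 D D₀)

/-- Pairs: independent data. -/
theorem fam_kd {N' : ℕ} {G₀ : Fin N' → AV} {μ ρ : Fin N' → ℕ} {β : ∀ n, Fin (ρ n + 1) → ℕ}
    {σ : ∀ n, Fin (ρ n + 1) → ℂ}
    (hC : ∀ n n', NwD (G₀ n) (μ n) (ρ n) (β n) (σ n) →
      NwD (G₀ n') (μ n') (ρ n') (β n') (σ n') →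
      Isg (G₀ n) (G₀ n') ∨ Cpt (μ n) (μ n') (ρ n) (ρ n') (sg (μ n) (ρ n) (β n))
        (sg (μ n') (ρ n') (β n')) ∨
      (HypW (μ n) (ρ n) (β n) → HypW (μ n') (ρ n') (β n') → ρ n = ρ n' →
        IndG (G := G₀ n) (G' := G₀ n') (m := μ n) (m' := μ n') (σ n) (β n) (σ n') (β n'))) :
    Fam (Kd N' G₀ μ ρ β σ) := by
  intro q R hR hne
  choose m r D h1 h2 using hR
  refine ⟨m, r, D, h1, fun i i' hii => ?_⟩
  -- different ranks
  by_cases hrr : r i = r i'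
  swap
  · exact fun h hh s t => tPPv _ _ _ _ _ _ (D i) (D i') (h1 i).gf (h1 i').gf (Or.inl hrr)
      (hne i i' hii) h hh s t
  have key : ((∀ s, 0 < (D i).p s) ∨ (∀ s, 0 < (D i').p s) ∨ ∃ (μ μ' : ℕ) (p p' : ℕ → ℕ),
      Pat (D i) μ p ∧ Pat (D i') μ' p' ∧ Cpt μ μ' (r i) (r i') p p') → Ind (D i) (D i') :=
    fun h3 h hh s t => tPPv _ _ _ _ _ _ (D i) (D i') (h1 i).gf (h1 i').gf
      (cpv_of (h1 i) (h1 i') h3) (hne i i' hii) h hh s t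
  rcases h2 i with hi | ⟨n, e1, e2, e3, e4, N, D₁, e5, eg, e6⟩
  · exact key (Or.inl hi)
  rcases h2 i' with hi | ⟨n', f1, f2, f3, f4, N₁, D₂, f5, fg, f6⟩
  · exact key (Or.inr (Or.inl hi))
  rcases hC n n' e2 f2 with hc | hc | hc
  · rw [← e1, ← f1] at hc
    exact absurd hc (hne i i' hii)
  · refine key (Or.inr (Or.inr ⟨_, _, _, _, e4, f4, ?_⟩))
    rw [e3, f3]
    exact hc
  · obtain ⟨c1, -⟩ := e2
    obtain ⟨c2, -⟩ := f2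
    have g1 : Gd (ρ n) (D i) := e3 ▸ h1 i
    have g2 : Gd (ρ n') (D i') := f3 ▸ h1 i'
    have hI : ∀ (N : New (R i) (μ n) (σ n) (β n)) (N' : New (R i') (μ n') (σ n') (β n'))
        (D : Cyc (R i) (μ n)) (D' : Cyc (R i') (μ n')), D.Z = N.Z → D'.Z = N'.Z →
        GFw D (ρ n) → GFw D' (ρ n') → Ind D D' := by
      rw [e1, f1]
      exact hc (hypW_of c1 g1 e4) (hypW_of c2 g2 f4) (by omega)
    have hI' := hI N N₁ D₁ D₂ e5 f5 eg fg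
    exact ind_frm e6 (ind_symm (ind_frm f6 (ind_symm hI')))

/-- **THE MAIN THEOREM**: `F` is a class of other factors, pairs of new parts are isogenous, or (*)
holds, or they are independent. -/
theorem con_main3 {F : AV → Prop}
    (hF : ∀ (K : AV → Prop), (∀ (G : AV) (m r : ℕ) (D : Cyc G m), Gd r D →
      (∀ s, 0 < D.p s) → K G) → ∀ G, F G → Dc (Cls K) G)
    (A B : AV) (N' : ℕ) (G : Fin N' → AV) (μ ρ : Fin N' → ℕ) (β : ∀ n, Fin (ρ n + 1) → ℕ)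
    (σ : ∀ n, Fin (ρ n + 1) → ℂ) (hA : IsCM A)
    (hG : ∀ n, F (G n) ∨ NwD (G n) (μ n) (ρ n) (β n) (σ n))
    (hC : ∀ n n', NwD (G n) (μ n) (ρ n) (β n) (σ n) →
      NwD (G n') (μ n') (ρ n') (β n') (σ n') →
      Isg (G n) (G n') ∨ Cpt (μ n) (μ n') (ρ n) (ρ n') (sg (μ n) (ρ n) (β n))
        (sg (μ n') (ρ n') (β n')) ∨
      (HypW (μ n) (ρ n) (β n) → HypW (μ n') (ρ n') (β n') → ρ n = ρ n' →
        IndG (G := G n) (G' := G n') (m := μ n) (m' := μ n') (σ n) (β n) (σ n') (β n')))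
    (hB : IsProdE B A G) : Con B := by
  refine con_of (K := Kd N' G μ ρ β σ) (fam_kd hC)
    (SES.tDcB SES.tDcA _ A B N' G ((SES.tDcA _).1 A hA) (fun n => ?_) hB)
  rcases hG n with h | h
  · exact hF _ (fun G m r D h1 h2 => ⟨m, r, D, h1, Or.inl h2⟩) _ h
  · obtain ⟨a1, a2, a3, -⟩ := SES.tDcA (Cls (Kd N' G μ ρ β σ))
    rcases h.2 with h1 | h1 | ⟨m₀, D₀, h1, h2, h3⟩
    · exact a1 _ h1
    · exact dc_small _ (fun G h => Or.inl (Or.inr h)) (fun G h => Or.inr h) h1.le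
    · exact a2 _ (Or.inl (Or.inl ⟨m₀, ρ n, D₀, h1, Or.inr ⟨n, rfl, h, rfl, h2, h3⟩⟩))

/-! ## The simple form -/

/-- The factors in the simple form: other factors, or new parts of all cyclic covers of the line whose branch set
`S` is contained in `{∞, s_1, …, s_p}`; if `S` has exactly 4 elements some signature must be `(2, 0)` and the
exponents must have no symmetry `KlG`. -/
def Fat {p : ℕ} (s : Fin p → ℂ) (G : AV) : Prop :=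
  Fa0 G ∨ ∃ (m r : ℕ) (b : Fin (r + 1) → ℕ) (i : Fin (r + 1) → Fin p) (k : Option (Fin p)),
    Okk i k ∧ ∃ _ : New G m (pt s i k) b,
      (IsCov m (pt s i k) b ∧
        (r ≠ 2 ∨ (KlG m b ∧ ∃ u < m, u.Coprime m ∧ sg m r b u = 2))) ∨
      (m = 2 ∧ (∀ j, b j = 1) ∧ Even r ∧ 4 ≤ r)

/-- **THE FINAL THEOREM**, simple form. -/
def FinT : Prop :=
  ∃ M : (p : ℕ) → Set (Fin p → ℂ), (∀ p, IsMeagre (M p)) ∧
  ∀ (p : ℕ) (s : Fin p → ℂ), s ∉ M p →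
  ∀ (A B T : AV) (N' : ℕ) (G : Fin N' → AV), IsCM A → (∀ n, Fat s (G n)) → IsProdE B A G →
  ∀ (q N : ℕ) (J : Fin q → AV) (j : Fin N → Fin q) (m : Fin q → ℕ)
    (Z : ∀ i, Module.End ℂ (J i).V) (E : ∀ i, (J i).V →ₗ[ℝ] (J i).V →ₗ[ℝ] ℝ)
    (ψ : T.V ≃ₗ[ℂ] B.V × (∀ n, (J (j n)).V)),
    (∀ i, Fct (J i) (m i) (Z i)) → (∀ i, IsPol (J i) (Z i) (E i)) →
    (∀ v ∈ T.L, ∃ k : ℕ, k ≠ 0 ∧ k • (ψ v).1 ∈ B.L ∧ ∀ n, k • (ψ v).2 n ∈ (J (j n)).L) →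
    ∀ (d : ℕ) (c : Hlg T d), IsHodge T d c → SUK Z E ψ c → Alg2 T d c

/-- The family of meagre sets. -/
def MMt (m r : ℕ) (b : Fin (r + 1) → ℕ) : Set (Fin (r + 1) → ℂ) := MMk m r b ∪ MMr m r b

/-- **THE FINAL THEOREM**, simple form, assembly. -/
theorem finT_of (Ms : SEV.ModsV) (K : SEK.ModsK) (hJ : SEK.S_Jnk) : FinT := by
  obtain ⟨M', hM', hJ⟩ := hJ MMt fun m r b =>
    (mmk_meagre SEU.tMxm m r b).union (mmr_meagre K m r b)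
  refine ⟨M', hM', ?_⟩
  intro p s hs A B T N' G hA hG hB q N J j m Z E ψ hFc hE hψ d c hc hS
  obtain ⟨hinj, hMM, hI⟩ := hJ p s hs
  -- the data
  have key : ∀ n, ∃ (μ ρ : ℕ) (β : Fin (ρ + 1) → ℕ) (σ : Fin (ρ + 1) → ℂ),
      (FacV MMk (G n) ∧ μ = 0) ∨ (NwD (G n) μ ρ β σ ∧ ∃ i k, Okk i k ∧ σ = pt s i k) := by
    intro n
    rcases hG n with h1 | ⟨m, r, b, i, k, hk, D, ⟨h1, h2⟩ | ⟨rfl, h2, h3, h4⟩⟩
    · refine ⟨0, 0, fun _ => 0, fun _ => 0, Or.inl ⟨?_, rfl⟩⟩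
      rcases h1 with h1 | h1 | h1 | h1
      · exact Or.inr (Or.inl h1)
      · exact Or.inr (Or.inr (Or.inl h1))
      · exact Or.inr (Or.inr (Or.inr (Or.inl h1)))
      · exact Or.inr (Or.inr (Or.inr (Or.inr (Or.inr h1))))
    · refine ⟨m, r, b, pt s i k, Or.inr ⟨?_, i, k, hk, rfl⟩⟩
      have hs' := hMM m r b i k hk
      rw [MMt, Set.mem_union, not_or] at hs'
      by_cases hr2 : r = 2
      · rcases h2 with h2 | ⟨h2, h3⟩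
        · exact absurd hr2 h2
        · exact nwD_k D h1 hr2 hs'.2 h2 h3
      · exact nwD_nw (M := MMk) (fun m r b s hs => Or.inl hs) ⟨D, h1, Or.inl ⟨hr2, hs'.1⟩⟩
    · obtain rfl : b = fun _ => 1 := funext h2
      have hs' := hMM 2 r (fun _ => 1) i k hk
      rw [MMt, Set.mem_union, not_or] at hs'
      refine ⟨0, 0, fun _ => 0, fun _ => 0, Or.inl ⟨?_, rfl⟩⟩
      refine Or.inr (Or.inr (Or.inr (Or.inr (Or.inl
        ⟨r, pt s i k, D, h4, h3, ?_, hs'.1⟩))))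
      rcases k with _ | k
      · exact hinj.comp hk.1
      · intro x y hxy
        have h5 : s (i x) - s k = s (i y) - s k := inv_injective hxy
        exact hk.1 (hinj (by linear_combination h5))
  choose μ ρ β σ key using key
  refine con_main3 (F := FacV MMk) (facV_dc Ms) A B N' G μ ρ β σ hA (fun n => ?_)
    (fun n n' h1 h2 => ?_) hB T q N J j m Z E ψ hFc hE hψ d c hc hS
  · rcases key n with ⟨h1, -⟩ | ⟨h1, -⟩
    · exact Or.inl h1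
    · exact Or.inr h1
  · have e0 : μ n ≠ 0 := by
      have := h1.1.1
      omega
    have e0' : μ n' ≠ 0 := by
      have := h2.1.1
      omega
    obtain ⟨-, i, k, e2, e3⟩ := (key n).resolve_left fun h => e0 h.2
    obtain ⟨-, i', k', f2, f3⟩ := (key n').resolve_left fun h => e0' h.2
    by_cases hisg : Isg (G n) (G n')
    · exact Or.inl hisg
    right
    rcases Nat.lt_or_ge (ρ n) 2 with h3 | h3
    · refine Or.inl fun _ _ h4 => ?_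
      obtain ⟨u, -, h5, h6⟩ := h4
      omega
    · refine Or.inr fun w1 w2 hr => ?_
      have c1 := h1.1
      have c2 := h2.1
      rw [e3] at c1 ⊢
      rw [f3] at c2 ⊢
      intro N N₁ D D' hD hD' hg hg'
      exact (hI _ _ _ _ _ _ i k i' k' e2 f2 h3 (by omega) w1 w2 c1 c2 _ _ N N₁
        D D' hD hD' (fun _ => ⟨D, hD, hg⟩) (fun _ => ⟨D', hD', hg'⟩)).resolve_left hisg

end SEL
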