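import Pool.Agent.Lib.SE.L.SpecM
import Pool.Agent.Lib.SE.G.Fn

/-!
# PROJECT SE-L: the final statement with one very general point (helper59, after helper64)
-/

set_option autoImplicit false

open Module

noncomputable section

namespace SEL

open HC HC.E HC.SE SEB SEQ SER SE SEE

/-- **Jnx**: ONE VERY GENERAL POINT (helper64, SE/X). -/
def S_Jnx : Prop :=
  ∃ M' : (p : ℕ) → Set (Fin p → ℂ), (∀ p, IsMeagre (M' p)) ∧
    (∀ (p : ℕ) (s : Fin p → ℂ), s ∉ M' p → ∀ (m r : ℕ) (b : Fin (r + 1) → ℕ)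
      (i : Fin (r + 1) → Fin p), Function.Injective i → s ∘ i ∉ SEG.MMk m r b) ∧
    ∀ (p m r : ℕ) (b : Fin (r + 1) → ℕ) (m' r' : ℕ) (b' : Fin (r' + 1) → ℕ) (s : Fin p → ℂ)
      (i : Fin (r + 1) → Fin p) (i' : Fin (r' + 1) → Fin p), s ∉ M' p →
      Function.Injective i → Function.Injective i' → 3 ≤ r → 3 ≤ r' → HypW m r b →
      HypW m' r' b' → IsCov m (s ∘ i) b → IsCov m' (s ∘ i') b' →
      ∀ (T T' : AV) (N : New T m (s ∘ i) b) (N' : New T' m' (s ∘ i') b') (D : Cyc T m)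
        (D' : Cyc T' m'), D.Z = N.Z → D'.Z = N'.Z → Isg T T' ∨ Ind D D'

/-- **THE FINAL THEOREM**, for a class `F` of other factors. `G n` is in the class `F`, or a new part as in `Nw`;
for all pairs of new parts which are not isogenous and do not satisfy (*) the branch points are coordinates of a
very general point. -/
def FinX (F : ((m r : ℕ) → (Fin (r + 1) → ℕ) → Set (Fin (r + 1) → ℂ)) → AV → Prop) : Prop :=
  (∀ m r, Cle m r → Cpt m m r r (sg m r fun _ => 1) (sg m r fun _ => 1)) ∧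
  ∃ (M : (m r : ℕ) → (Fin (r + 1) → ℕ) → Set (Fin (r + 1) → ℂ))
    (M' : (p : ℕ) → Set (Fin p → ℂ)),
  (∀ m r b, IsMeagre (M m r b)) ∧ (∀ p, IsMeagre (M' p)) ∧
  (∀ (p : ℕ) (s : Fin p → ℂ), s ∉ M' p → ∀ (m r : ℕ) (b : Fin (r + 1) → ℕ)
    (i : Fin (r + 1) → Fin p), Function.Injective i → s ∘ i ∉ M m r b) ∧
  ∀ (A B T : AV) (N' : ℕ) (G : Fin N' → AV) (μ ρ : Fin N' → ℕ) (β : ∀ n, Fin (ρ n + 1) → ℕ)
    (σ : ∀ n, Fin (ρ n + 1) → ℂ),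
    IsCM A → (∀ n, F M (G n) ∨ Nw M (G n) (μ n) (ρ n) (β n) (σ n)) →
    (∀ n n', Nw M (G n) (μ n) (ρ n) (β n) (σ n) → Nw M (G n') (μ n') (ρ n') (β n') (σ n') →
      Isg (G n) (G n') ∨ Cpt (μ n) (μ n') (ρ n) (ρ n') (sg (μ n) (ρ n) (β n))
        (sg (μ n') (ρ n') (β n')) ∨
      (3 ≤ ρ n ∧ ∃ (p : ℕ) (s : Fin p → ℂ) (i : Fin (ρ n + 1) → Fin p)
        (i' : Fin (ρ n' + 1) → Fin p), s ∉ M' p ∧ Function.Injective i ∧
        Function.Injective i' ∧ σ n = s ∘ i ∧ σ n' = s ∘ i')) →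
    IsProdE B A G →
  ∀ (q N : ℕ) (J : Fin q → AV) (j : Fin N → Fin q) (m : Fin q → ℕ)
    (Z : ∀ i, Module.End ℂ (J i).V) (E : ∀ i, (J i).V →ₗ[ℝ] (J i).V →ₗ[ℝ] ℝ)
    (ψ : T.V ≃ₗ[ℂ] B.V × (∀ n, (J (j n)).V)),
    (∀ i, Fct (J i) (m i) (Z i)) → (∀ i, IsPol (J i) (Z i) (E i)) →
    (∀ v ∈ T.L, ∃ k : ℕ, k ≠ 0 ∧ k • (ψ v).1 ∈ B.L ∧ ∀ n, k • (ψ v).2 n ∈ (J (j n)).L) →
    ∀ (d : ℕ) (c : Hlg T d), IsHodge T d c → SUK Z E ψ c → Alg2 T d c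

end SEL
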