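import Pool.Agent.Lib.SE.L.FnM
import Pool.Agent.Lib.SE.L.SpecX

/-!
# PROJECT SE-L: assembly of the final theorem with one very general point (helper59)
-/

set_option autoImplicit false

open Module

noncomputable section

namespace SEL

open HC HC.E HC.SE SEB SEQ SE SER SEE SES SEG

/-- **THE FINAL THEOREM** with one very general point, assembly: `F` is a class of other factors. -/
theorem finX_of {F : ((m r : ℕ) → (Fin (r + 1) → ℕ) → Set (Fin (r + 1) → ℂ)) → AV → Prop}
    (hF : ∀ (K : AV → Prop), (∀ (G : AV) (m r : ℕ) (D : Cyc G m), Gd r D →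
      (∀ s, 0 < D.p s) → K G) → ∀ G, F MMk G → Dc (Cls K) G) (hJ : S_Jnx) : FinX F := by
  obtain ⟨M', hM', hMM, hJ⟩ := hJ
  refine ⟨cpt_one, MMk, M', mmk_meagre SEU.tMxm, hM', hMM, ?_⟩
  intro A B T N' G μ ρ β σ hA hG hC hB q N J j m Z E ψ hFc hE hψ d c hc hS
  refine con_main hF A B N' G μ ρ β σ hA hG (fun n n' h h' => ?_) hB T q N J j m Z E ψ hFc
    hE hψ d c hc hS
  rcases hC n n' h h' with h1 | h1 | ⟨h1, p, s, i, i', h2, h3, h4, h5, h6⟩
  · exact Or.inl h1
  · exact Or.inr (Or.inl h1)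
  · by_cases hI : Isg (G n) (G n')
    · exact Or.inl hI
    · refine Or.inr (Or.inr fun w1 w2 hr => ?_)
      obtain ⟨-, c1, -⟩ := h
      obtain ⟨-, c2, -⟩ := h'
      rw [h5] at c1 ⊢
      rw [h6] at c2 ⊢
      intro N N₁ D D' hD hD'
      exact (hJ p _ _ _ _ _ _ s i i' h2 h3 h4 h1 (by omega) w1 w2 c1 c2 _ _ N N₁ D D' hD
        hD').resolve_left hI

/-- **THE FINAL THEOREM** with one very general point and the factors `Fac`, from `S_Jnx`. -/
theorem finX_fac (hJ : S_Jnx) : FinX Fac := finX_of fac_dc hJ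

end SEL
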