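import Pool.Agent.Lib.SE.L.FnM
import Pool.Agent.Lib.SE.L.SpecZ

/-!
# PROJECT SE-L: assembly of the final theorem for very general points of the line (helper59)
-/

set_option autoImplicit false

open Module

noncomputable section

namespace SEL

open HC HC.E HC.SE SEB SEQ SE SER SEE SES SEG SEZ FnM_aux

/-- **New parts**, with `GFw` for the given structure. -/
theorem nw_data2 {M : (m r : ℕ) → (Fin (r + 1) → ℕ) → Set (Fin (r + 1) → ℂ)}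
    (hM : ∀ m r b, MMx m r b ⊆ M m r b) {G : AV} {m r : ℕ} {b : Fin (r + 1) → ℕ}
    {s : Fin (r + 1) → ℂ} (h : Nw M G m r b s) : IsCM G ∨ finrank ℂ G.V = 2 ∨
    ∃ (m₀ : ℕ) (D₀ : Cyc G m₀), Gd r D₀ ∧ Pat D₀ m (sg m r b) ∧
      ∃ (N : New G m s b) (D : Cyc G m), D.Z = N.Z ∧ GFw D r ∧ Frm0 D D₀ := by
  obtain ⟨N, hc, h⟩ := h
  have hm : 3 ≤ m := hc.1
  rcases nw_pre hM N hc h with h1 | ⟨-, h1⟩ | ⟨D, hD, h1, h2, h3, h4, h5, h6⟩
  · exact Or.inl h1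
  · exact Or.inr (Or.inl h1)
  refine Or.inr (Or.inr ?_)
  by_cases hm4 : m % 4 = 2
  swap
  · exact ⟨m, D, ⟨h2, h3, hm4, h4, h5, h6⟩, pat_self hm h1, N, D, hD, h2, Or.inl ⟨rfl, rfl⟩⟩
  obtain ⟨k, rfl⟩ : ∃ k, m = 2 * k := ⟨m / 2, by omega⟩
  have hk : Odd k := Nat.odd_iff.2 (by omega)
  refine ⟨k, Cnv_aux.D0 hk D, ⟨⟨?_, h2.hr, ?_, Cnv_aux.hit hk D h2.hit⟩, Cnv_aux.hda hk D h3,
    ?_, ?_, ?_, ?_⟩, pat_neg hk h1, N, D, hD, h2, Or.inr ⟨hk, rfl, rfl⟩⟩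
  · obtain ⟨j, rfl⟩ := hk
    omega
  · rw [h2.dim, Nat.totient_two_mul_of_odd hk]
  · obtain ⟨j, rfl⟩ := hk
    omega
  · obtain ⟨u, hu⟩ := h4
    exact ⟨Cnv_aux.Ec hk u, by rw [Cnv_aux.p_eq]; exact hu⟩
  · obtain ⟨u, hu⟩ := h5
    exact ⟨Cnv_aux.Ec hk u, by rw [Cnv_aux.p_eq]; exact hu⟩
  · rw [← Nat.totient_two_mul_of_odd hk]
    exact h6

/-- The class of the good factors in the final theorem, for given data. -/
def Kz (N' : ℕ) (G₀ : Fin N' → AV) (μ ρ : Fin N' → ℕ) (β : ∀ n, Fin (ρ n + 1) → ℕ)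
    (σ : ∀ n, Fin (ρ n + 1) → ℂ) (G : AV) : Prop :=
  ∃ (m r : ℕ) (D₀ : Cyc G m), Gd r D₀ ∧ ((∀ s, 0 < D₀.p s) ∨
    ∃ n, G = G₀ n ∧ Nw MMk (G₀ n) (μ n) (ρ n) (β n) (σ n) ∧ r = ρ n ∧
      Pat D₀ (μ n) (sg (μ n) (ρ n) (β n)) ∧
      ∃ (N : New G (μ n) (σ n) (β n)) (D : Cyc G (μ n)), D.Z = N.Z ∧ GFw D (ρ n) ∧ Frm0 D D₀)

/-- All structures of the two new parts with large Hodge group are independent. -/
def IndG {G G' : AV} {m m' r r' : ℕ} (s : Fin (r + 1) → ℂ) (b : Fin (r + 1) → ℕ)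
    (s' : Fin (r' + 1) → ℂ) (b' : Fin (r' + 1) → ℕ) : Prop :=
  ∀ (N : New G m s b) (N' : New G' m' s' b') (D : Cyc G m) (D' : Cyc G' m'), D.Z = N.Z →
    D'.Z = N'.Z → GFw D r → GFw D' r' → Ind D D'

/-- Pairs: independent data. -/
theorem fam_kz {N' : ℕ} {G₀ : Fin N' → AV} {μ ρ : Fin N' → ℕ} {β : ∀ n, Fin (ρ n + 1) → ℕ}
    {σ : ∀ n, Fin (ρ n + 1) → ℂ}
    (hC : ∀ n n', Nw MMk (G₀ n) (μ n) (ρ n) (β n) (σ n) →
      Nw MMk (G₀ n') (μ n') (ρ n') (β n') (σ n') →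
      Isg (G₀ n) (G₀ n') ∨ Cpt (μ n) (μ n') (ρ n) (ρ n') (sg (μ n) (ρ n) (β n))
        (sg (μ n') (ρ n') (β n')) ∨
      (HypW (μ n) (ρ n) (β n) → HypW (μ n') (ρ n') (β n') → ρ n = ρ n' →
        IndG (G := G₀ n) (G' := G₀ n') (m := μ n) (m' := μ n') (σ n) (β n) (σ n') (β n'))) :
    Fam (Kz N' G₀ μ ρ β σ) := by
  intro q R hR hne
  choose m r D h1 h2 using hR
  refine ⟨m, r, D, h1, fun i i' hii => ?_⟩
  -- different ranks
  by_cases hrr : r i = r i'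
  swap
  · exact fun h hh s t => tPPv _ _ _ _ _ _ (D i) (D i') (h1 i).gf (h1 i').gf (Or.inl hrr)
      (hne i i' hii) h hh s t
  have key : ((∀ s, 0 < (D i).p s) ∨ (∀ s, 0 < (D i').p s) ∨ ∃ (μ μ' : ℕ) (p p' : ℕ → ℕ),
      Pat (D i) μ p ∧ Pat (D i') μ' p' ∧ Cpt μ μ' (r i) (r i') p p') → Ind (D i) (D i') :=
    fun h3 h hh s t => tPPv _ _ _ _ _ _ (D i) (D i') (h1 i).gf (h1 i').gf
      (cpv_of (h1 i) (h1 i') h3) (hne i i' hii) h hh s t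
  rcases h2 i with hi | ⟨n, e1, e2, e3, e4, N, D₁, e5, eg, e6⟩
  · exact key (Or.inl hi)
  rcases h2 i' with hi | ⟨n', f1, f2, f3, f4, N₁, D₂, f5, fg, f6⟩
  · exact key (Or.inr (Or.inl hi))
  rcases hC n n' e2 f2 with hc | hc | hc
  · rw [← e1, ← f1] at hc
    exact absurd hc (hne i i' hii)
  · refine key (Or.inr (Or.inr ⟨_, _, _, _, e4, f4, ?_⟩))
    rw [e3, f3]
    exact hc
  · obtain ⟨-, c1, -⟩ := e2
    obtain ⟨-, c2, -⟩ := f2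
    have g1 : Gd (ρ n) (D i) := e3 ▸ h1 i
    have g2 : Gd (ρ n') (D i') := f3 ▸ h1 i'
    have hI : ∀ (N : New (R i) (μ n) (σ n) (β n)) (N' : New (R i') (μ n') (σ n') (β n'))
        (D : Cyc (R i) (μ n)) (D' : Cyc (R i') (μ n')), D.Z = N.Z → D'.Z = N'.Z →
        GFw D (ρ n) → GFw D' (ρ n') → Ind D D' := by
      rw [e1, f1]
      exact hc (hypW_of c1 g1 e4) (hypW_of c2 g2 f4) (by omega)
    have hI' := hI N N₁ D₁ D₂ e5 f5 eg fg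
    exact ind_frm e6 (ind_symm (ind_frm f6 (ind_symm hI')))

/-- **THE MAIN THEOREM**: `F` is a class of other factors, pairs of new parts are isogenous, or (*)
holds, or they are independent. -/
theorem con_main2 {F : AV → Prop}
    (hF : ∀ (K : AV → Prop), (∀ (G : AV) (m r : ℕ) (D : Cyc G m), Gd r D →
      (∀ s, 0 < D.p s) → K G) → ∀ G, F G → Dc (Cls K) G)
    (A B : AV) (N' : ℕ) (G : Fin N' → AV) (μ ρ : Fin N' → ℕ) (β : ∀ n, Fin (ρ n + 1) → ℕ)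
    (σ : ∀ n, Fin (ρ n + 1) → ℂ) (hA : IsCM A)
    (hG : ∀ n, F (G n) ∨ Nw MMk (G n) (μ n) (ρ n) (β n) (σ n))
    (hC : ∀ n n', Nw MMk (G n) (μ n) (ρ n) (β n) (σ n) →
      Nw MMk (G n') (μ n') (ρ n') (β n') (σ n') →
      Isg (G n) (G n') ∨ Cpt (μ n) (μ n') (ρ n) (ρ n') (sg (μ n) (ρ n) (β n))
        (sg (μ n') (ρ n') (β n')) ∨
      (HypW (μ n) (ρ n) (β n) → HypW (μ n') (ρ n') (β n') → ρ n = ρ n' →
        IndG (G := G n) (G' := G n') (m := μ n) (m' := μ n') (σ n) (β n) (σ n') (β n')))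
    (hB : IsProdE B A G) : Con B := by
  refine con_of (K := Kz N' G μ ρ β σ) (fam_kz hC)
    (SES.tDcB SES.tDcA _ A B N' G ((SES.tDcA _).1 A hA) (fun n => ?_) hB)
  rcases hG n with h | h
  · exact hF _ (fun G m r D h1 h2 => ⟨m, r, D, h1, Or.inl h2⟩) _ h
  · obtain ⟨a1, a2, a3, -⟩ := SES.tDcA (Cls (Kz N' G μ ρ β σ))
    rcases nw_data2 (fun m r b s hs => Or.inl hs) h with h1 | h1 | ⟨m₀, D₀, h1, h2, h3⟩
    · exact a1 _ h1
    · exact dc_small _ (fun G h => Or.inl (Or.inr h)) (fun G h => Or.inr h) h1.le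
    · exact a2 _ (Or.inl (Or.inl ⟨m₀, ρ n, D₀, h1, Or.inr ⟨n, rfl, h, rfl, h2, h3⟩⟩))

/-- **THE FINAL THEOREM** for very general points of the line, assembly: `F` is a class of other
factors. -/
theorem finZ_of {F : ((m r : ℕ) → (Fin (r + 1) → ℕ) → Set (Fin (r + 1) → ℂ)) → AV → Prop}
    (hF : ∀ (K : AV → Prop), (∀ (G : AV) (m r : ℕ) (D : Cyc G m), Gd r D →
      (∀ s, 0 < D.p s) → K G) → ∀ G, F MMk G → Dc (Cls K) G) (hJ : SEZ.S_Jnz) : FinZ F := by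
  obtain ⟨M', hM', hJ⟩ := hJ MMk (mmk_meagre SEU.tMxm)
  refine ⟨cpt_one, MMk, M', mmk_meagre SEU.tMxm, hM',
    fun p s hs => ⟨(hJ p s hs).1, (hJ p s hs).2.1⟩, ?_⟩
  intro A B T N' G μ ρ β σ hA hG hC hB q N J j m Z E ψ hFc hE hψ d c hc hS
  refine con_main2 hF A B N' G μ ρ β σ hA hG (fun n n' h h' => ?_) hB T q N J j m Z E ψ hFc
    hE hψ d c hc hS
  rcases hC n n' h h' with h1 | h1 | ⟨h1, p, s, i, k, i', k', h2, h3, h4, h5, h6, h7⟩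
  · exact Or.inl h1
  · exact Or.inr (Or.inl h1)
  · by_cases hI : Isg (G n) (G n')
    · exact Or.inl hI
    · refine Or.inr (Or.inr fun w1 w2 hr => ?_)
      obtain ⟨-, c1, -⟩ := h
      obtain ⟨-, c2, -⟩ := h'
      rw [h6] at c1 ⊢
      rw [h7] at c2 ⊢
      intro N N₁ D D' hD hD' hg hg'
      exact ((hJ p s h2).2.2 _ _ _ _ _ _ i k i' k' h3 h4 h1 (by omega) h5 w1 w2 c1 c2 _ _ N N₁
        D D' hD hD' (fun _ => ⟨D, hD, hg⟩) (fun _ => ⟨D', hD', hg'⟩)).resolve_left hI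

/-- **THE FINAL THEOREM**, simple form. -/
theorem finW_of (h : FinZ FacV) : FinW := by
  obtain ⟨-, M, M', hM, hM', hMM, h⟩ := h
  refine ⟨M', hM', ?_⟩
  intro p s hs A B T N' G hA hG hB q N J j m Z E ψ hFc hE hψ d c hc hS
  obtain ⟨hinj, hMM⟩ := hMM p s hs
  -- the data
  have key : ∀ n, ∃ (μ ρ : ℕ) (β : Fin (ρ + 1) → ℕ) (σ : Fin (ρ + 1) → ℂ),
      (FacV M (G n) ∧ μ = 0) ∨ (Nw M (G n) μ ρ β σ ∧ ρ ≠ 2 ∧ ∃ i k, Okk i k ∧ σ = pt s i k) := by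
    intro n
    rcases hG n with h1 | ⟨m, r, b, i, k, hk, D, ⟨h1, h2⟩ | ⟨rfl, h2, h3, h4⟩⟩
    · refine ⟨0, 0, fun _ => 0, fun _ => 0, Or.inl ⟨?_, rfl⟩⟩
      rcases h1 with h1 | h1 | h1 | h1
      · exact Or.inr (Or.inl h1)
      · exact Or.inr (Or.inr (Or.inl h1))
      · exact Or.inr (Or.inr (Or.inr (Or.inl h1)))
      · exact Or.inr (Or.inr (Or.inr (Or.inr (Or.inr h1))))
    · exact ⟨m, r, b, pt s i k, Or.inr ⟨⟨D, h1, Or.inl ⟨h2, hMM m r b i k hk⟩⟩, h2, i, k, hk,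
        rfl⟩⟩
    · obtain rfl : b = fun _ => 1 := funext h2
      refine ⟨0, 0, fun _ => 0, fun _ => 0, Or.inl ⟨?_, rfl⟩⟩
      refine Or.inr (Or.inr (Or.inr (Or.inr (Or.inl
        ⟨r, pt s i k, D, h4, h3, ?_, hMM 2 r _ i k hk⟩))))
      rcases k with _ | k
      · exact hinj.comp hk.1
      · intro x y hxy
        have h5 : s (i x) - s k = s (i y) - s k := inv_injective hxy
        exact hk.1 (hinj (by linear_combination h5))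
  choose μ ρ β σ key using key
  refine h A B T N' G μ ρ β σ hA (fun n => ?_) (fun n n' h1 h2 => ?_) hB q N J j m Z E ψ hFc hE
    hψ d c hc hS
  · rcases key n with ⟨h1, -⟩ | ⟨h1, -⟩
    · exact Or.inl h1
    · exact Or.inr h1
  · have e0 : μ n ≠ 0 := by
      obtain ⟨-, hc, -⟩ := h1
      have := hc.1
      omega
    have e0' : μ n' ≠ 0 := by
      obtain ⟨-, hc, -⟩ := h2
      have := hc.1
      omega
    obtain ⟨-, e1, i, k, e2, e3⟩ := (key n).resolve_left fun h => e0 h.2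
    obtain ⟨-, f1, i', k', f2, f3⟩ := (key n').resolve_left fun h => e0' h.2
    right
    rcases Nat.lt_or_ge (ρ n) 3 with h3 | h3
    · refine Or.inl fun _ _ h4 => ?_
      obtain ⟨u, -, h5, h6⟩ := h4
      omega
    · exact Or.inr ⟨by omega, p, s, i, k, i', k', hs, e2, f2, Or.inl h3, e3, f3⟩

end SEL
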