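import Pool.Agent.Lib.SE.G.SpecK

/-!
# PROJECT SE-L: any exponents, all signature types (helper59)
-/

set_option autoImplicit false

open Module

noncomputable section

namespace SEL

open HC HC.E HC.SE SEB SEQ SER SE SEE

/-- (*) for signatures `p`, `p'` of the levels `μ`, `μ'` and the ranks `r`, `r'`: if the ranks and the levels up to
a factor `2` are equal and `t` is a unit such that `p' (t u) = p u` for all `u` such that `p u` or `p' (t u)` is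
indefinite, then this holds for all `u` (in rank 2 up to the sign of `t`); some `p u` is indefinite. -/
def Cpt (μ μ' r r' : ℕ) (p p' : ℕ → ℕ) : Prop :=
  r = r' → Nat.lcm 2 μ = Nat.lcm 2 μ' → (∃ u, u.Coprime (2 * μ) ∧ 0 < p u ∧ p u < r) →
  ∀ t, t.Coprime (2 * μ) →
    (∀ u, u.Coprime (2 * μ) → (0 < p u ∧ p u < r) ∨ (0 < p' (t * u) ∧ p' (t * u) < r) →
      p' (t * u) = p u) →
    (∀ u, u.Coprime (2 * μ) → p' (t * u) = p u) ∨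
      (r = 2 ∧ ∀ u, u.Coprime (2 * μ) → p' (t * u) + p u = 2)

/-- `G` is the new part of the Jacobian of `y ^ m = ∏_j (x - s_j) ^ b_j`, with `r + 2` branch points, where
(1) `r ≠ 2` and `s` is not in `M m r b`, or (2) the signatures have no multipliers and `r = 2`, or some signature is
`1` and the commutant of `Z` is `ℚ(Z)`. -/
def Nw (M : (m r : ℕ) → (Fin (r + 1) → ℕ) → Set (Fin (r + 1) → ℂ)) (G : AV) (m r : ℕ)
    (b : Fin (r + 1) → ℕ) (s : Fin (r + 1) → ℂ) : Prop :=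
  ∃ N : New G m s b, IsCov m s b ∧ ((r ≠ 2 ∧ s ∉ M m r b) ∨ (AperC m r b ∧
    (r = 2 ∨ ((∃ u < m, u.Coprime m ∧ sg m r b u = 1) ∧ EndQ G N.Z))))

/-- THE OTHER FACTORS. `G` is (i) of CM type, or (ii) of dimension at most `2`, or (iii) with real
multiplication of degree `dim G`, or (iv) of dimension at least `2` with Hodge group the symplectic
group, or (v) the Jacobian of `y ^ 2 = f(x)`, `f` of odd degree `≥ 5` with distinct roots, outside a meagre set,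
or (vi) of Picard type, `dim G ≥ 3`, with commutant of `Z` equal to `ℚ(Z)`. -/
def Fac (M : (m r : ℕ) → (Fin (r + 1) → ℕ) → Set (Fin (r + 1) → ℂ)) (G : AV) : Prop :=
  IsCM G ∨ finrank ℂ G.V ≤ 2 ∨ IsRM G ∨ SES.IsSy G ∨ SES.IsHy (fun r => M 2 r fun _ => 1) G ∨
  ∃ (m : ℕ) (Z : Module.End ℂ G.V), IsPic G m Z ∧ 3 ≤ finrank ℂ G.V ∧ EndQ G Z

/-- **THE FINAL THEOREM.** -/
def FinL : Prop :=
  (∀ m r, Cle m r → Cpt m m r r (sg m r fun _ => 1) (sg m r fun _ => 1)) ∧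
  ∃ M : (m r : ℕ) → (Fin (r + 1) → ℕ) → Set (Fin (r + 1) → ℂ), (∀ m r b, IsMeagre (M m r b)) ∧
  ∀ (A B T : AV) (N' : ℕ) (G : Fin N' → AV) (μ ρ : Fin N' → ℕ) (β : ∀ n, Fin (ρ n + 1) → ℕ)
    (σ : ∀ n, Fin (ρ n + 1) → ℂ),
    IsCM A → (∀ n, Fac M (G n) ∨ Nw M (G n) (μ n) (ρ n) (β n) (σ n)) →
    (∀ n n', Nw M (G n) (μ n) (ρ n) (β n) (σ n) → Nw M (G n') (μ n') (ρ n') (β n') (σ n') →
      Isg (G n) (G n') ∨ Cpt (μ n) (μ n') (ρ n) (ρ n') (sg (μ n) (ρ n) (β n))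
        (sg (μ n') (ρ n') (β n'))) →
    IsProdE B A G →
  ∀ (q N : ℕ) (J : Fin q → AV) (j : Fin N → Fin q) (m : Fin q → ℕ)
    (Z : ∀ i, Module.End ℂ (J i).V) (E : ∀ i, (J i).V →ₗ[ℝ] (J i).V →ₗ[ℝ] ℝ)
    (ψ : T.V ≃ₗ[ℂ] B.V × (∀ n, (J (j n)).V)),
    (∀ i, Fct (J i) (m i) (Z i)) → (∀ i, IsPol (J i) (Z i) (E i)) →
    (∀ v ∈ T.L, ∃ k : ℕ, k ≠ 0 ∧ k • (ψ v).1 ∈ B.L ∧ ∀ n, k • (ψ v).2 n ∈ (J (j n)).L) →
    ∀ (d : ℕ) (c : Hlg T d), IsHodge T d c → SUK Z E ψ c → Alg2 T d c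

/-! ## The modules -/

/-- The condition on a pair: different rank; or different real fields; or the same `m` and every unit `g` for which
the signatures agree at the indefinite characters makes them agree (in rank 2 up to the sign of `g`); or
`{m, m'} = {3, 4}` and rank at least `3`. -/
def Cpv {T T' : AV} {m m' : ℕ} (D : Cyc T m) (D' : Cyc T' m') (r r' : ℕ) : Prop :=
  r ≠ r' ∨
  (∃ ρ : ℕ, ρ.Coprime (m * m') ∧ (ρ : ZMod m) = 1 ∧ (ρ : ZMod m') ≠ 1 ∧ (ρ : ZMod m') ≠ -1) ∨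
  (∃ ρ : ℕ, ρ.Coprime (m * m') ∧ (ρ : ZMod m') = 1 ∧ (ρ : ZMod m) ≠ 1 ∧ (ρ : ZMod m) ≠ -1) ∨
  (∃ h : m = m', ∀ g : (ZMod m)ˣ,
    (∀ u, (0 < D.p u ∧ D.p u < r) ∨ (0 < (h ▸ D').p (g * u) ∧ (h ▸ D').p (g * u) < r) →
      (h ▸ D').p (g * u) = D.p u) →
    (∀ u, D.p u = (h ▸ D').p (g * u)) ∨ (r = 2 ∧ ∀ u, (h ▸ D').p (g * u) + D.p u = 2)) ∨
  (3 ≤ r ∧ (m = 3 ∧ m' = 4 ∨ m = 4 ∧ m' = 3))

/-- **PPv**: pairs: isogenous or independent. -/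
def PPv : Prop :=
  ∀ (T T' : AV) (m m' r r' : ℕ) (D : Cyc T m) (D' : Cyc T' m'), SEG.GFw D r → SEG.GFw D' r' →
    Cpv D D' r r' → ¬ Isg T T' → ∀ h, HLie2 D D' h → ∀ s t, Hit2 D D' h s t

/-- `D` has the signature `p` of level `μ` up to a unit. -/
def Pat {G : AV} {m : ℕ} (D : Cyc G m) (μ : ℕ) (p : ℕ → ℕ) : Prop :=
  (μ = m ∨ (Odd m ∧ μ = 2 * m)) ∧ (∀ u u', u ≡ u' [MOD μ] → p u = p u') ∧
    ∃ c : ℕ, c.Coprime (2 * m) ∧
      ∀ (v : (ZMod m)ˣ) (u : ℕ), u.Coprime (2 * m) → (u : ZMod m) = v → D.p v = p (c * u)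

/-- The data of a factor. -/
structure Gd {G : AV} {m : ℕ} (r : ℕ) (D : Cyc G m) : Prop where
  gf : SEG.GFw D r
  da : SEG.HDa D
  m4 : m % 4 ≠ 2
  ind : ∃ u, 0 < D.p u ∧ D.p u < r
  p2 : ∃ s, 2 ≤ D.p s
  t2 : 3 ≤ r ∨ 2 < m.totient

end SEL
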