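import Pool.Agent.Lib.SE.L.Spec

/-!
# PROJECT SE-L: the final statement with jointly very general branch points (helper59)
-/

set_option autoImplicit false

open Module

noncomputable section

namespace SEL

open HC HC.E HC.SE SEB SEQ SER SE SEE

/-- The pair is independent. -/
def Ind {T T' : AV} {m m' : ℕ} (D : Cyc T m) (D' : Cyc T' m') : Prop :=
  ∀ h, HLie2 D D' h → ∀ s t, Hit2 D D' h s t

/-- Sets of pairs `(s, s')`. -/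
abbrev M2 : Type := (m r : ℕ) → (Fin (r + 1) → ℕ) → (m' r' : ℕ) → (Fin (r' + 1) → ℕ) →
  Set ((Fin (r + 1) → ℂ) × (Fin (r' + 1) → ℂ))

/-- **Jnt**: JOINTLY VERY GENERAL BRANCH POINTS (helper64, SE/Y). -/
def S_Jnt : Prop :=
  ∃ M₂ : M2, (∀ m r b m' r' b', IsMeagre (M₂ m r b m' r' b')) ∧
    ∀ (m r : ℕ) (b : Fin (r + 1) → ℕ) (m' r' : ℕ) (b' : Fin (r' + 1) → ℕ)
      (s : Fin (r + 1) → ℂ) (s' : Fin (r' + 1) → ℂ), (s, s') ∉ M₂ m r b m' r' b' → 3 ≤ r →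
      3 ≤ r' → HypW m r b → HypW m' r' b' → IsCov m s b → IsCov m' s' b' →
      ∀ (T T' : AV) (N : New T m s b) (N' : New T' m' s' b') (D : Cyc T m) (D' : Cyc T' m'),
        D.Z = N.Z → D'.Z = N'.Z → Ind D D'

/-- **THE FINAL THEOREM**, for a class `F` of other factors. -/
def FinM (F : ((m r : ℕ) → (Fin (r + 1) → ℕ) → Set (Fin (r + 1) → ℂ)) → AV → Prop) : Prop :=
  (∀ m r, Cle m r → Cpt m m r r (sg m r fun _ => 1) (sg m r fun _ => 1)) ∧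
  ∃ (M : (m r : ℕ) → (Fin (r + 1) → ℕ) → Set (Fin (r + 1) → ℂ)) (M₂ : M2),
  (∀ m r b, IsMeagre (M m r b)) ∧ (∀ m r b m' r' b', IsMeagre (M₂ m r b m' r' b')) ∧
  ∀ (A B T : AV) (N' : ℕ) (G : Fin N' → AV) (μ ρ : Fin N' → ℕ) (β : ∀ n, Fin (ρ n + 1) → ℕ)
    (σ : ∀ n, Fin (ρ n + 1) → ℂ),
    IsCM A → (∀ n, F M (G n) ∨ Nw M (G n) (μ n) (ρ n) (β n) (σ n)) →
    (∀ n n', Nw M (G n) (μ n) (ρ n) (β n) (σ n) → Nw M (G n') (μ n') (ρ n') (β n') (σ n') →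
      Isg (G n) (G n') ∨ Cpt (μ n) (μ n') (ρ n) (ρ n') (sg (μ n) (ρ n) (β n))
        (sg (μ n') (ρ n') (β n')) ∨
      (3 ≤ ρ n ∧ (σ n, σ n') ∉ M₂ (μ n) (ρ n) (β n) (μ n') (ρ n') (β n'))) →
    IsProdE B A G →
  ∀ (q N : ℕ) (J : Fin q → AV) (j : Fin N → Fin q) (m : Fin q → ℕ)
    (Z : ∀ i, Module.End ℂ (J i).V) (E : ∀ i, (J i).V →ₗ[ℝ] (J i).V →ₗ[ℝ] ℝ)
    (ψ : T.V ≃ₗ[ℂ] B.V × (∀ n, (J (j n)).V)),
    (∀ i, Fct (J i) (m i) (Z i)) → (∀ i, IsPol (J i) (Z i) (E i)) →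
    (∀ v ∈ T.L, ∃ k : ℕ, k ≠ 0 ∧ k • (ψ v).1 ∈ B.L ∧ ∀ n, k • (ψ v).2 n ∈ (J (j n)).L) →
    ∀ (d : ℕ) (c : Hlg T d), IsHodge T d c → SUK Z E ψ c → Alg2 T d c

end SEL
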